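import Pool.Agent.T6.H73.SY.DecEx

/-!
The abelian irreducible case, and the counting theorem.
-/

set_option autoImplicit false

namespace Pool.Agent.T6.H73.SY

open scoped Classical

theorem mersenne_aux {p n m : ℕ} (hp : p.Prime) (hp2 : p ≠ 2) (hn : 1 ≤ n)
    (h : p ^ n + 1 = 2 ^ m) : ∃ m', p + 1 = 2 ^ m' := by
  have hodd : Odd p := hp.odd_of_ne_two hp2
  rcases Nat.even_or_odd n with he | ho
  · exfalso
    obtain ⟨r, rfl⟩ := he
    have h1 : (p ^ (r + r)) % 4 = 1 := by
      obtain ⟨s, rfl⟩ := hodd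
      have h2 : (2 * s + 1) ^ (r + r) = ((2 * s + 1) ^ 2) ^ r := by rw [← pow_mul]; congr 1; ring
      rw [h2, Nat.pow_mod]
      have h3 : (2 * s + 1) ^ 2 % 4 = 1 := by
        have : (2 * s + 1) ^ 2 = 4 * (s * s + s) + 1 := by ring
        omega
      rw [h3]; simp
    have hm : m ≤ 1 := by
      by_contra hm
      obtain ⟨m', rfl⟩ : ∃ m', m = m' + 2 := ⟨m - 2, by omega⟩
      have h2 : 2 ^ (m' + 2) = 4 * 2 ^ m' := by ring
      rw [h2] at h
      omega
    have h2 : 2 ^ m ≤ 2 ^ 1 := Nat.pow_le_pow_right (by norm_num) hm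
    have h3 : 1 < p ^ (r + r) := Nat.one_lt_pow (by omega) hp.one_lt
    omega
  · have h1 : p + 1 ∣ p ^ n + 1 ^ n := Odd.nat_add_dvd_pow_add_pow p 1 ho
    rw [one_pow, h] at h1
    obtain ⟨m', -, hm'⟩ := (Nat.dvd_prime_pow Nat.prime_two).1 h1
    exact ⟨m', hm'⟩

theorem three_pow_aux (m : ℕ) : 2 * m + 1 ≤ 3 ^ m := by
  induction m with
  | zero => norm_num
  | succ m ih => rw [pow_succ]; omega

theorem arith_aux {I : Type*} [Fintype I] (a : I → ℕ) (s : ℕ) (hs1 : 1 ≤ s)
    (hdvd : ∏ i, a i ∣ s) (ha : ∀ i, a i = 1 ∨ 3 ≤ a i) (hs : ∀ i, a i ≠ 1 → s ≠ a i) (i : I) :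
    2 * a i + (Finset.univ.filter (fun i => a i ≠ 1)).card ≤ s + 1 := by
  set N := Finset.univ.filter (fun i => a i ≠ 1) with hN
  have hprod : ∏ i, a i = ∏ i ∈ N, a i := by
    symm
    apply Finset.prod_subset (Finset.subset_univ _)
    intro j _ hj
    by_contra hne
    exact hj (Finset.mem_filter.2 ⟨Finset.mem_univ _, hne⟩)
  rw [hprod] at hdvd
  have hN3 : ∀ j ∈ N, 3 ≤ a j := by
    intro j hj
    rcases ha j with h | h
    · exact absurd h (Finset.mem_filter.1 hj).2
    · exact h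
  by_cases hi : a i = 1
  · have h1 : 3 ^ N.card ≤ ∏ i ∈ N, a i := by
      rw [← Finset.prod_const]
      exact Finset.prod_le_prod' hN3
    have h2 := Nat.le_of_dvd (by omega) hdvd
    have h3 := three_pow_aux N.card
    rw [hi]
    omega
  · have hiN : i ∈ N := Finset.mem_filter.2 ⟨Finset.mem_univ _, hi⟩
    have h0 : a i * ∏ j ∈ N.erase i, a j = ∏ i ∈ N, a i := Finset.mul_prod_erase _ _ hiN
    rw [← h0] at hdvd
    have h1 : 3 ^ (N.erase i).card ≤ ∏ j ∈ N.erase i, a j := by
      rw [← Finset.prod_const]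
      exact Finset.prod_le_prod' (fun j hj => hN3 j (Finset.mem_of_mem_erase hj))
    have h3 := three_pow_aux (N.erase i).card
    have hcard : N.card = (N.erase i).card + 1 := (Finset.card_erase_add_one hiN).symm
    set M := (N.erase i).card with hM
    set c := ∏ j ∈ N.erase i, a j with hc
    have h4 := Nat.le_of_dvd (by omega) hdvd
    have h5 := hN3 i hiN
    rcases Nat.eq_zero_or_pos M with hM0 | hM1
    · have hc1 : 1 ≤ c := by rw [hM0] at h1; simpa using h1
      have h6 : a i ∣ s := (dvd_mul_right _ _).trans hdvd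
      obtain ⟨t, rfl⟩ := h6
      have ht : t ≠ 1 := by
        rintro rfl
        exact hs i hi (by rw [mul_one])
      have ht0 : t ≠ 0 := by
        rintro rfl
        omega
      have : 2 ≤ t := by omega
      nlinarith
    · have h7 : 3 ≤ c := by omega
      have h8 : 2 * M + 1 ≤ c := by omega
      nlinarith

variable {q : ℕ} [Fact q.Prime] {V : Type*} [AddCommGroup V] [Module (ZMod q) V] {Γ : Type*}
  [Group Γ] {I : Type*}

theorem case_abl [Finite V] [Finite Γ] [Finite I] {p : I → ℕ} (hp : ∀ i, (p i).Prime)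
    (hinj : Function.Injective p)
    (hp2 : ∀ i, p i ≠ 2) (hM : ∀ i n m, 1 ≤ n → p i ^ n + 1 ≠ q ^ m)
    {ρ : Γ →* Module.End (ZMod q) V} {D : I → Subgroup Γ} {X : Submodule (ZMod q) V}
    (hF : Fam p ρ D X) (hX : X ≠ ⊥)
    (hirr : ∀ Y ≤ X, Y ≠ ⊥ → (∀ i, ∀ d ∈ D i, ∀ y ∈ Y, ρ d y ∈ Y) → Y = X)
    (hab : ∀ i, ∀ d ∈ D i, ∀ d' ∈ D i, ∀ x ∈ X, ρ d (ρ d' x) = ρ d' (ρ d x))
    (u : I → V) (hu : ∀ i, u i ∈ X) (i : I) :
    2 * (Ker ρ X).relIndex (D i) ≤ Nat.card (Good ρ D X u) := by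
  haveI : Fintype I := Fintype.ofFinite I
  haveI : Fintype V := Fintype.ofFinite V
  have hfree : ∀ i, ∀ d ∈ D i, ∀ x ∈ X, x ≠ 0 → ρ d x = x → d ∈ Ker ρ X := by
    intro i d hd x hx hx0 hdx
    have hY := hirr (X ⊓ LinearMap.eqLocus (ρ d) LinearMap.id) inf_le_left (by
      intro hbot
      have : x ∈ (X ⊓ LinearMap.eqLocus (ρ d) LinearMap.id : Submodule (ZMod q) V) := ⟨hx, hdx⟩
      rw [hbot] at this
      exact hx0 this) (by
      rintro j g hg y ⟨hy1, hy2⟩
      refine ⟨hF.inv j g hg y hy1, ?_⟩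
      show ρ d (ρ g y) = ρ g y
      have hy2' : ρ d y = y := hy2
      by_cases hij : i = j
      · subst hij
        rw [hab i d hd g hg y hy1, hy2']
      · rw [rho_comm ρ (hF.comm i j hij d hd g hg), hy2'])
    intro y hy
    rw [← hY] at hy
    exact hy.2
  -- index of the kernel divides `|X| - 1`
  set a : I → ℕ := fun i => (Ker ρ X).relIndex (D i) with ha
  have hdvd : ∀ i, a i ∣ Nat.card {x : V // x ∈ X ∧ x ≠ 0} := by
    intro i
    letI : MulAction (D i) {x : V // x ∈ X ∧ x ≠ 0} :=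
      { smul := fun d x => ⟨ρ d x, hF.inv i d d.2 x x.2.1, fun h0 => x.2.2 (by
          rw [← rho_inv_mul ρ d x, h0, map_zero])⟩
        one_smul := by
          intro x
          apply Subtype.ext
          show ρ ((1 : D i) : Γ) x = x
          rw [Subgroup.coe_one, map_one]; rfl
        mul_smul := by
          intro d d' x
          apply Subtype.ext
          show ρ ((d * d' : D i) : Γ) x = ρ d (ρ d' x)
          rw [Subgroup.coe_mul, map_mul]; rfl }
    have hst : ∀ x : {x : V // x ∈ X ∧ x ≠ 0},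
        MulAction.stabilizer (D i) x = (Ker ρ X).subgroupOf (D i) := by
      intro x
      ext d
      rw [MulAction.mem_stabilizer_iff, Subgroup.mem_subgroupOf]
      constructor
      · intro h
        exact hfree i d d.2 x x.2.1 x.2.2 (congrArg Subtype.val h)
      · intro h
        apply Subtype.ext
        exact h x x.2.1
    rw [Nat.card_congr (MulAction.selfEquivSigmaOrbits (D i) {x : V // x ∈ X ∧ x ≠ 0})]
    haveI : Finite (MulAction.orbitRel.Quotient (D i) {x : V // x ∈ X ∧ x ≠ 0}) :=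
      inferInstance
    haveI : Fintype (MulAction.orbitRel.Quotient (D i) {x : V // x ∈ X ∧ x ≠ 0}) :=
      Fintype.ofFinite _
    rw [Nat.card_sigma]
    apply Finset.dvd_sum
    intro ω _
    apply dvd_of_eq
    rw [ha]
    show (Ker ρ X).relIndex (D i) = Nat.card (MulAction.orbit (D i) ω.out)
    rw [Subgroup.relIndex, ← hst ω.out, MulAction.index_stabilizer]
    rfl
  have hcardX : ∃ m : ℕ, Nat.card X = q ^ m := by
    refine ⟨Module.finrank (ZMod q) X, ?_⟩
    rw [Module.natCard_eq_pow_finrank (K := ZMod q), Nat.card_zmod]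
  obtain ⟨m, hm⟩ := hcardX
  obtain ⟨x₀, hx₀, hx₀0⟩ := (Submodule.ne_bot_iff X).1 hX
  set s := Nat.card {x : V // x ∈ X ∧ x ≠ 0} with hs
  have hsX : s + 1 = Nat.card X := by
    have h1 : Nat.card X = (Finset.univ.filter (fun x : V => x ∈ X)).card := by
      rw [Nat.card_eq_fintype_card, Fintype.card_subtype]
    have h2 : s = ((Finset.univ.filter (fun x : V => x ∈ X)).erase 0).card := by
      rw [hs, Nat.card_eq_fintype_card, Fintype.card_subtype]
      congr 1
      ext x
      simp [and_comm]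
    rw [h1, h2, Finset.card_erase_add_one (Finset.mem_filter.2 ⟨Finset.mem_univ _, X.zero_mem⟩)]
  have hs1 : 1 ≤ s := by
    haveI : Nonempty {x : V // x ∈ X ∧ x ≠ 0} := ⟨⟨x₀, hx₀, hx₀0⟩⟩
    exact Nat.card_pos
  have hpow : ∀ i, ∃ n, a i = p i ^ n := by
    intro i
    haveI := Fact.mk (hp i)
    exact (hF.pg i).index _
  choose n hn using hpow
  have ha3 : ∀ i, a i = 1 ∨ 3 ≤ a i := by
    intro i
    rcases Nat.eq_zero_or_pos (n i) with h0 | h0
    · left; rw [hn, h0, pow_zero]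
    · right
      have h1 : 3 ≤ p i := by
        have := (hp i).two_le
        have := hp2 i
        omega
      calc 3 ≤ p i := h1
        _ = p i ^ 1 := (pow_one _).symm
        _ ≤ p i ^ n i := Nat.pow_le_pow_right (hp i).pos h0
        _ = a i := (hn i).symm
  have hprod : ∏ i, a i ∣ s := by
    apply Finset.prod_dvd_of_isRelPrime
    · intro i _ j _ hij
      show IsRelPrime (a i) (a j)
      rw [← Nat.coprime_iff_isRelPrime, hn i, hn j]
      exact Nat.Coprime.pow _ _ ((Nat.coprime_primes (hp i) (hp j)).2 (fun h => hij (hinj h)))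
    · intro i _
      exact hdvd i
  have harith := arith_aux a s hs1 hprod ha3 (by
    intro i hi hsi
    rcases Nat.eq_zero_or_pos (n i) with h0 | h0
    · exact hi (by rw [hn, h0, pow_zero])
    · apply hM i (n i) m h0
      rw [← hn, ← hsi, hsX, hm]) i
  -- the good vectors
  have hgood : Nat.card X ≤ Nat.card (Good ρ D X u) +
      (Finset.univ.filter (fun i => a i ≠ 1)).card := by
    have h1 : Nat.card X = (Finset.univ.filter (fun x : V => x ∈ X)).card := by
      rw [Nat.card_eq_fintype_card, Fintype.card_subtype]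
    have h2 : Nat.card (Good ρ D X u) =
        (Finset.univ.filter (fun x : V => x ∈ Good ρ D X u)).card := by
      rw [Nat.card_eq_fintype_card, Fintype.card_subtype]
    rw [h1, h2]
    have h3 : (Finset.univ.filter (fun x : V => x ∈ X)) ⊆
        (Finset.univ.filter (fun x : V => x ∈ Good ρ D X u)) ∪
          (Finset.univ.filter (fun i => a i ≠ 1)).image (fun i => - u i) := by
      intro x hx
      have hx' := (Finset.mem_filter.1 hx).2
      rw [Finset.mem_union]
      by_cases hex : ∃ j, a j ≠ 1 ∧ x = - u j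
      · right
        obtain ⟨j, hj, rfl⟩ := hex
        exact Finset.mem_image.2 ⟨j, Finset.mem_filter.2 ⟨Finset.mem_univ _, hj⟩, rfl⟩
      · left
        rw [Finset.mem_filter]
        refine ⟨Finset.mem_univ _, hx', ?_⟩
        intro j d hd hfix
        by_cases hj : a j = 1
        · exact (Subgroup.relIndex_eq_one.1 hj) hd
        · apply hfree j d hd _ (X.add_mem (hu j) hx') ?_ hfix
          intro h0
          exact hex ⟨j, hj, (eq_neg_of_add_eq_zero_right h0)⟩
    refine (Finset.card_le_card h3).trans ((Finset.card_union_le _ _).trans ?_)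
    exact Nat.add_le_add_left Finset.card_image_le _
  have : 2 * a i ≤ Nat.card (Good ρ D X u) := by omega
  exact this

theorem TC_all [Finite V] [Finite Γ] [Finite I] {p : I → ℕ} (hp : ∀ i, (p i).Prime)
    (hinj : Function.Injective p)
    (hp2 : ∀ i, p i ≠ 2) (hpq : ∀ i, p i ≠ q) (hM : ∀ i n m, 1 ≤ n → p i ^ n + 1 ≠ q ^ m)
    (ρ : Γ →* Module.End (ZMod q) V) : ∀ X : Submodule (ZMod q) V, X ≠ ⊥ → TC p ρ X := by
  have hpk : ∀ i, (p i : ZMod q) ≠ 0 := by
    intro i h
    rw [ZMod.natCast_eq_zero_iff] at h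
    have hq := (Fact.out : q.Prime)
    rcases (Nat.dvd_prime (hp i)).1 h with h1 | h1
    · exact hq.one_lt.ne' h1
    · exact hpq i h1.symm
  intro X
  induction X using WellFoundedLT.induction with
  | ind X ih =>
    intro hX D hF u hu i
    by_cases hred : ∃ Y ≤ X, Y ≠ ⊥ ∧ Y ≠ X ∧ ∀ i, ∀ d ∈ D i, ∀ y ∈ Y, ρ d y ∈ Y
    · obtain ⟨Y, hYX, hY0, hYne, hYinv⟩ := hred
      obtain ⟨Z, hZX, hYZ, hsup, hZinv⟩ := complement hp hpk hF hYX hYinv
      have hZ0 : Z ≠ ⊥ := by
        rintro rfl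
        rw [sup_bot_eq] at hsup
        exact hYne hsup
      have hZne : Z ≠ X := by
        rintro rfl
        rw [inf_eq_left.2 hYX] at hYZ
        exact hY0 hYZ
      exact case_red hF hYX hZX hYZ hsup hYinv hZinv (ih Y (lt_of_le_of_ne hYX hYne) hY0)
        (ih Z (lt_of_le_of_ne hZX hZne) hZ0) u hu i
    · have hirr : ∀ Y ≤ X, Y ≠ ⊥ → (∀ i, ∀ d ∈ D i, ∀ y ∈ Y, ρ d y ∈ Y) → Y = X := by
        intro Y hYX hY0 hYinv
        by_contra hne
        exact hred ⟨Y, hYX, hY0, hne, hYinv⟩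
      by_cases hna : ∃ i₀, ∃ d ∈ D i₀, ∃ d' ∈ D i₀, ∃ x ∈ X, ρ d (ρ d' x) ≠ ρ d' (ρ d x)
      · obtain ⟨i₀, hna⟩ := hna
        haveI : NeZero (p i₀) := ⟨(hp i₀).ne_zero⟩
        obtain ⟨W, e, c, hD, hW⟩ := exists_dec i₀ (hp i₀) (hp2 i₀) (hpk i₀) hF hX hirr hna
        exact case_imp i₀ (hp i₀) (hp2 i₀) hF hD (fun a => ih (W a) (hW a).1 (hW a).2) u hu i
      · push Not at hna
        exact case_abl hp hinj hp2 hM hF hX hirr hna u hu i

end Pool.Agent.T6.H73.SY
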