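import Pool.Agent.T6.H73.SY.Abl

/-!
Commuting groups of automorphisms of an elementary abelian group; elementary abelian normal
subgroups of solvable groups.
-/

set_option autoImplicit false

namespace Pool.Agent.T6.H73.SY

open scoped Classical commutatorElement

/-- additive endomorphisms are linear over `ZMod q` -/
def mkρ {V : Type*} [AddCommGroup V] {q : ℕ} [Module (ZMod q) V] {Γ : Type*} [Group Γ]
    (σ : Γ →* AddMonoid.End V) : Γ →* Module.End (ZMod q) V where
  toFun φ := AddMonoidHom.toZModLinearMap q (σ φ)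
  map_one' := by
    apply LinearMap.ext
    intro x
    show σ 1 x = x
    rw [map_one]
    rfl
  map_mul' := by
    intro a b
    apply LinearMap.ext
    intro x
    show σ (a * b) x = σ a (σ b x)
    rw [map_mul]
    rfl

theorem exists_good_mod {V : Type*} [AddCommGroup V] [Finite V] [Nontrivial V] {q : ℕ}
    [Fact q.Prime] [Module (ZMod q) V] {Γ : Type*} [Group Γ] [Finite Γ]
    (σ : Γ →* AddMonoid.End V) {I : Type*} [Finite I] {p : I → ℕ}
    (hp : ∀ i, (p i).Prime) (hinj : Function.Injective p) (hp2 : ∀ i, p i ≠ 2)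
    (hpq : ∀ i, p i ≠ q) (hM : ∀ i n m, 1 ≤ n → p i ^ n + 1 ≠ q ^ m)
    (D : I → Subgroup Γ) (hD : ∀ i, IsPGroup (p i) (D i))
    (hcomm : ∀ i j, i ≠ j → ∀ a ∈ D i, ∀ b ∈ D j, a * b = b * a) (u : I → V) :
    ∃ v : V, ∀ i, ∀ d ∈ D i, σ d (u i + v) = u i + v → ∀ a : V, σ d a = a := by
  have hF : Fam p (mkρ (q := q) σ) D (⊤ : Submodule (ZMod q) V) :=
    ⟨hD, hcomm, fun _ _ _ _ _ => Submodule.mem_top⟩
  have hne : (⊤ : Submodule (ZMod q) V) ≠ ⊥ := top_ne_bot
  have hTC := TC_all hp hinj hp2 hpq hM (mkρ (q := q) σ) ⊤ hne D hF u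
    (fun _ => Submodule.mem_top)
  have hnonempty : (Good (mkρ (q := q) σ) D (⊤ : Submodule (ZMod q) V) u).Nonempty := by
    by_cases hI : Nonempty I
    · obtain ⟨i⟩ := hI
      have h1 := hTC i
      have h2 : 1 ≤ (Ker (mkρ (q := q) σ) ⊤).relIndex (D i) :=
        Nat.one_le_iff_ne_zero.2 (relIndex_ne _ _)
      have h3 : 0 < Nat.card (Good (mkρ (q := q) σ) D (⊤ : Submodule (ZMod q) V) u) := by
        omega
      exact Set.nonempty_coe_sort.1 (Nat.card_pos_iff.1 h3).1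
    · exact ⟨0, Submodule.mem_top, fun i => absurd ⟨i⟩ hI⟩
  obtain ⟨v, -, hv⟩ := hnonempty
  refine ⟨v, ?_⟩
  intro i d hd hfix a
  exact hv i d hd hfix a Submodule.mem_top

theorem exists_good_add {V : Type*} [AddCommGroup V] [Finite V] [Nontrivial V] {q : ℕ}
    (hq : q.Prime) (hV : ∀ x : V, q • x = 0) {Γ : Type*} [Group Γ] [Finite Γ]
    (σ : Γ →* AddMonoid.End V) {I : Type*} [Finite I] {p : I → ℕ}
    (hp : ∀ i, (p i).Prime) (hinj : Function.Injective p) (hp2 : ∀ i, p i ≠ 2)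
    (hpq : ∀ i, p i ≠ q) (hM : ∀ i n m, 1 ≤ n → p i ^ n + 1 ≠ q ^ m)
    (D : I → Subgroup Γ) (hD : ∀ i, IsPGroup (p i) (D i))
    (hcomm : ∀ i j, i ≠ j → ∀ a ∈ D i, ∀ b ∈ D j, a * b = b * a) (u : I → V) :
    ∃ v : V, ∀ i, ∀ d ∈ D i, σ d (u i + v) = u i + v → ∀ a : V, σ d a = a := by
  haveI := Fact.mk hq
  letI : Module (ZMod q) V := AddCommGroup.zmodModule hV
  exact exists_good_mod (q := q) σ hp hinj hp2 hpq hM D hD hcomm u

/-- `p_i`-groups of automorphisms of an elementary abelian `q`-group -/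
theorem exists_good_comm {A : Type*} [CommGroup A] [Finite A] [Nontrivial A] {q : ℕ}
    (hq : q.Prime) (hA : ∀ a : A, a ^ q = 1) {I : Type*} [Finite I] {p : I → ℕ}
    (hp : ∀ i, (p i).Prime) (hinj : Function.Injective p) (hp2 : ∀ i, p i ≠ 2)
    (hpq : ∀ i, p i ≠ q) (hM : ∀ i n m, 1 ≤ n → p i ^ n + 1 ≠ q ^ m)
    (D : I → Subgroup (MulAut A)) (hD : ∀ i, IsPGroup (p i) (D i))
    (hcomm : ∀ i j, i ≠ j → ∀ a ∈ D i, ∀ b ∈ D j, a * b = b * a) (u : I → A) :
    ∃ v : A, ∀ i, ∀ d ∈ D i, d (u i * v) = u i * v → ∀ a : A, d a = a := by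
  haveI : Finite (Additive A) := inferInstanceAs (Finite A)
  haveI : Nontrivial (Additive A) := inferInstanceAs (Nontrivial A)
  haveI : Finite (MulAut A) := by
    apply Finite.of_injective (fun φ : MulAut A => (φ : A → A))
    intro a b h
    ext x
    exact congrFun h x
  let σ : MulAut A →* AddMonoid.End (Additive A) :=
    { toFun := fun φ => MonoidHom.toAdditive (φ.toMonoidHom)
      map_one' := rfl
      map_mul' := fun _ _ => rfl }
  obtain ⟨v, hv⟩ := exists_good_add hq (V := Additive A) (fun x => hA x.toMul) σ hp hinj hp2 hpq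
    hM D hD hcomm (fun i => Additive.ofMul (u i))
  refine ⟨v.toMul, ?_⟩
  intro i d hd hfix a
  have h1 := hv i d hd (by
    show Additive.ofMul (d (u i * v.toMul)) = Additive.ofMul (u i * v.toMul)
    rw [hfix]) (Additive.ofMul a)
  exact congrArg Additive.toMul h1

theorem exists_good {A : Type*} [Group A] (hc : ∀ a b : A, a * b = b * a) [Finite A]
    [Nontrivial A] {q : ℕ}
    (hq : q.Prime) (hA : ∀ a : A, a ^ q = 1) {I : Type*} [Finite I] {p : I → ℕ}
    (hp : ∀ i, (p i).Prime) (hinj : Function.Injective p) (hp2 : ∀ i, p i ≠ 2)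
    (hpq : ∀ i, p i ≠ q) (hM : ∀ i n m, 1 ≤ n → p i ^ n + 1 ≠ q ^ m)
    (D : I → Subgroup (MulAut A)) (hD : ∀ i, IsPGroup (p i) (D i))
    (hcomm : ∀ i j, i ≠ j → ∀ a ∈ D i, ∀ b ∈ D j, a * b = b * a) (u : I → A) :
    ∃ v : A, ∀ i, ∀ d ∈ D i, d (u i * v) = u i * v → ∀ a : A, d a = a := by
  letI : CommGroup A := { (inferInstance : Group A) with mul_comm := hc }
  exact exists_good_comm hq hA hp hinj hp2 hpq hM D hD hcomm u

/-- a nontrivial finite solvable group has a nontrivial elementary abelian normal subgroup -/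
theorem exists_elem {G : Type*} [Group G] [Finite G] [Group.IsSolvable G] [Nontrivial G] :
    ∃ (q : ℕ) (N : Subgroup G), q.Prime ∧ N.Normal ∧ N ≠ ⊥ ∧ (∀ a ∈ N, a ^ q = 1) ∧
      ∀ a ∈ N, ∀ b ∈ N, a * b = b * a := by
  have hsol : ∃ n, derivedSeries G n = ⊥ := Group.IsSolvable.solvable
  have hfind := Nat.find_spec hsol
  set n := Nat.find hsol with hn
  have hn0 : n ≠ 0 := by
    intro h0
    rw [h0, derivedSeries_zero] at hfind
    exact top_ne_bot hfind
  obtain ⟨m, hm⟩ := Nat.exists_eq_succ_of_ne_zero hn0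
  set A := derivedSeries G m with hA
  have hAne : A ≠ ⊥ := by
    intro h
    have := Nat.find_min hsol (m := m) (by omega)
    exact this h
  have hAcomm : ∀ a ∈ A, ∀ b ∈ A, a * b = b * a := by
    intro a ha b hb
    rw [hm, Nat.succ_eq_add_one, derivedSeries_succ] at hfind
    have h1 : ⁅a, b⁆ ∈ ⁅derivedSeries G m, derivedSeries G m⁆ :=
      Subgroup.commutator_mem_commutator ha hb
    rw [hfind, Subgroup.mem_bot] at h1
    exact commutatorElement_eq_one_iff_mul_comm.1 h1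
  have hAn : A.Normal := inferInstance
  haveI : Nontrivial A := (Subgroup.nontrivial_iff_ne_bot A).2 hAne
  have hcard : Nat.card A ≠ 1 := by
    have := Finite.one_lt_card (α := A)
    omega
  set q := (Nat.card A).minFac with hq
  have hqp : q.Prime := Nat.minFac_prime hcard
  haveI := Fact.mk hqp
  let N : Subgroup G :=
    { carrier := {a | a ∈ A ∧ a ^ q = 1}
      one_mem' := ⟨A.one_mem, one_pow _⟩
      mul_mem' := by
        rintro a b ⟨ha, ha'⟩ ⟨hb, hb'⟩
        refine ⟨A.mul_mem ha hb, ?_⟩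
        rw [(show Commute a b from hAcomm a ha b hb).mul_pow, ha', hb', one_mul]
      inv_mem' := by
        rintro a ⟨ha, ha'⟩
        exact ⟨A.inv_mem ha, by rw [inv_pow, ha', inv_one]⟩ }
  refine ⟨q, N, hqp, ?_, ?_, fun a ha => ha.2, fun a ha b hb => hAcomm a ha.1 b hb.1⟩
  · constructor
    rintro a ⟨ha, ha'⟩ g
    refine ⟨hAn.conj_mem a ha g, ?_⟩
    rw [conj_pow, ha']; group
  · obtain ⟨⟨c, hcA⟩, hc⟩ := exists_prime_orderOf_dvd_card' (G := A) q (Nat.minFac_dvd _)
    rw [Subgroup.orderOf_mk] at hc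
    intro hbot
    have h1 : c ∈ N := ⟨hcA, by rw [← hc, pow_orderOf_eq_one]⟩
    rw [hbot, Subgroup.mem_bot] at h1
    rw [h1, orderOf_one] at hc
    exact hqp.one_lt.ne hc

end Pool.Agent.T6.H73.SY
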