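import Pool.Agent.T6.H73.SY.Imp

/-!
The imprimitive case: existence of the decomposition.
-/

set_option autoImplicit false

namespace Pool.Agent.T6.H73.SY

open scoped Classical

variable {k : Type*} [Field k] {V : Type*} [AddCommGroup V] [Module k V] {Γ : Type*} [Group Γ]
variable {I : Type*}

/-- the action of `D i₀` on `X` -/
noncomputable def act {p : I → ℕ} {ρ : Γ →* Module.End k V} {D : I → Subgroup Γ} {X : Submodule k V}
    (hF : Fam p ρ D X) (i₀ : I) : D i₀ →* Equiv.Perm X where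
  toFun d :=
    { toFun := fun x => ⟨ρ d x, hF.inv i₀ d d.2 x x.2⟩
      invFun := fun x => ⟨ρ (d : Γ)⁻¹ x, hF.inv i₀ _ ((D i₀).inv_mem d.2) x x.2⟩
      left_inv := by
        intro x
        apply Subtype.ext
        exact rho_inv_mul ρ d x
      right_inv := by
        intro x
        apply Subtype.ext
        exact rho_mul_inv ρ d x }
  map_one' := by
    ext x
    show ρ ((1 : D i₀) : Γ) x = x
    rw [Subgroup.coe_one, map_one]; rfl
  map_mul' := by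
    intro a b
    ext x
    show ρ ((a * b : D i₀) : Γ) x = ρ a (ρ b x)
    rw [Subgroup.coe_mul, map_mul]; rfl

theorem act_apply {p : I → ℕ} {ρ : Γ →* Module.End k V} {D : I → Subgroup Γ}
    {X : Submodule k V} (hF : Fam p ρ D X) (i₀ : I) (d : D i₀) (x : X) :
    ((act hF i₀ d x : X) : V) = ρ d x := rfl

theorem act_eq_iff {p : I → ℕ} {ρ : Γ →* Module.End k V} {D : I → Subgroup Γ}
    {X : Submodule k V} (hF : Fam p ρ D X) (i₀ : I) (a b : D i₀) :
    act hF i₀ a = act hF i₀ b ↔ ∀ x ∈ X, ρ (a : Γ) x = ρ (b : Γ) x := by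
  constructor
  · intro h x hx
    have := congrArg (fun f : Equiv.Perm X => ((f ⟨x, hx⟩ : X) : V)) h
    exact this
  · intro h
    ext x
    exact h x x.2

theorem exists_zh_act [Finite V] {p : I → ℕ} (i₀ : I) (hp : (p i₀).Prime) (hp2 : p i₀ ≠ 2)
    {ρ : Γ →* Module.End k V} {D : I → Subgroup Γ} {X : Submodule k V} (hF : Fam p ρ D X)
    (hna : ∃ d ∈ D i₀, ∃ d' ∈ D i₀, ∃ x ∈ X, ρ d (ρ d' x) ≠ ρ d' (ρ d x)) :
    ∃ z ∈ D i₀, ∃ h ∈ D i₀, (∀ g ∈ D i₀, ∀ x ∈ X, ρ z (ρ g x) = ρ g (ρ z x)) ∧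
      (∀ n : ℕ, 0 < n → n < p i₀ → ∃ x ∈ X, ρ (z ^ n) x ≠ x) ∧
      (∀ x ∈ X, ρ (z ^ (p i₀)) x = x) ∧ (∀ x ∈ X, ρ (h ^ (p i₀)) x = x) ∧
      (∀ n : ℕ, ∃ x ∈ X, ρ h x ≠ ρ (z ^ n) x) ∧
      ∀ g ∈ D i₀, ∃ n : ℕ, ∀ x ∈ X, ρ h (ρ g x) = ρ g (ρ h (ρ (z ^ n) x)) := by
  have hPg : IsPGroup (p i₀) (act hF i₀).range :=
    (hF.pg i₀).of_surjective (act hF i₀).rangeRestrict (act hF i₀).rangeRestrict_surjective
  have hnc : ∃ a b : (act hF i₀).range, a * b ≠ b * a := by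
    obtain ⟨d, hd, d', hd', x, hx, hne⟩ := hna
    refine ⟨⟨act hF i₀ ⟨d, hd⟩, ⟨_, rfl⟩⟩, ⟨act hF i₀ ⟨d', hd'⟩, ⟨_, rfl⟩⟩, ?_⟩
    intro h
    apply hne
    have h1 := congrArg Subtype.val h
    have h2 := congrArg (fun f : Equiv.Perm X => ((f ⟨x, hx⟩ : X) : V)) h1
    exact h2
  obtain ⟨⟨_, ⟨z, rfl⟩⟩, ⟨_, ⟨h, rfl⟩⟩, h1, h2, h3, h4, h5, h6⟩ := exists_zh hp hp2 hPg hnc
  have h3' : act hF i₀ z ^ (p i₀) = 1 := congrArg Subtype.val h3
  have h2' : act hF i₀ z ≠ 1 := fun h => h2 (Subtype.ext h)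
  refine ⟨z, z.2, h, h.2, ?_, ?_, ?_, ?_, ?_, ?_⟩
  · intro g hg x hx
    have h7 := h1 ⟨act hF i₀ ⟨g, hg⟩, ⟨_, rfl⟩⟩
    have h8 := congrArg Subtype.val h7
    exact congrArg (fun f : Equiv.Perm X => ((f ⟨x, hx⟩ : X) : V)) h8
  · intro n hn hnp
    by_contra hcon
    push Not at hcon
    have h7 : act hF i₀ z ^ n = 1 := by
      rw [← map_pow, ← map_one (act hF i₀), act_eq_iff]
      intro x hx
      rw [Subgroup.coe_one, map_one]
      exact hcon x hx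
    have h8 : orderOf (act hF i₀ z) ∣ p i₀ := orderOf_dvd_of_pow_eq_one h3'
    have h9 : orderOf (act hF i₀ z) ∣ n := orderOf_dvd_of_pow_eq_one h7
    rcases (Nat.dvd_prime hp).1 h8 with h10 | h10
    · exact h2' (orderOf_eq_one_iff.1 h10)
    · rw [h10] at h9
      exact absurd (Nat.le_of_dvd hn h9) (by omega)
  · intro x hx
    rw [← map_pow, ← map_one (act hF i₀), act_eq_iff] at h3'
    have := h3' x hx
    rw [Subgroup.coe_one, map_one] at this
    exact this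
  · intro x hx
    have h4' : act hF i₀ h ^ (p i₀) = 1 := congrArg Subtype.val h4
    rw [← map_pow, ← map_one (act hF i₀), act_eq_iff] at h4'
    have := h4' x hx
    rw [Subgroup.coe_one, map_one] at this
    exact this
  · intro n
    by_contra hcon
    push Not at hcon
    apply h5 n
    apply Subtype.ext
    show act hF i₀ h = act hF i₀ z ^ n
    rw [← map_pow, act_eq_iff]
    exact hcon
  · intro g hg
    obtain ⟨n, hn⟩ := h6 ⟨act hF i₀ ⟨g, hg⟩, ⟨_, rfl⟩⟩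
    refine ⟨n, fun x hx => ?_⟩
    have h7 : act hF i₀ h * act hF i₀ ⟨g, hg⟩ = act hF i₀ ⟨g, hg⟩ * act hF i₀ h *
        act hF i₀ z ^ n := congrArg Subtype.val hn
    rw [← map_pow, ← map_mul, ← map_mul, ← map_mul, act_eq_iff] at h7
    have h8 := h7 x hx
    simp only [Subgroup.coe_mul, map_mul, Module.End.mul_apply] at h8
    exact h8

theorem pow_mod_aux {ρ : Γ →* Module.End k V} {X : Submodule k V} {g : Γ} {p : ℕ}
    (h : ∀ x ∈ X, ρ (g ^ p) x = x) (n : ℕ) : ∀ x ∈ X, ρ (g ^ n) x = ρ (g ^ (n % p)) x := by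
  intro x hx
  have h1 : ∀ m : ℕ, ρ ((g ^ p) ^ m) x = x := by
    intro m
    induction m with
    | zero => rw [pow_zero, map_one]; rfl
    | succ m ih => rw [pow_succ, map_mul, Module.End.mul_apply, h x hx, ih]
  conv_lhs => rw [← Nat.mod_add_div n p, pow_add, pow_mul, map_mul, Module.End.mul_apply, h1]

theorem exists_dec [Finite V] [Finite Γ] {p : I → ℕ} (i₀ : I) (hp : (p i₀).Prime)
    (hp2 : p i₀ ≠ 2) [NeZero (p i₀)] (hpk : (p i₀ : k) ≠ 0)
    {ρ : Γ →* Module.End k V} {D : I → Subgroup Γ} {X : Submodule k V} (hF : Fam p ρ D X)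
    (hX : X ≠ ⊥)
    (hirr : ∀ Y ≤ X, Y ≠ ⊥ → (∀ i, ∀ d ∈ D i, ∀ y ∈ Y, ρ d y ∈ Y) → Y = X)
    (hna : ∃ d ∈ D i₀, ∃ d' ∈ D i₀, ∃ x ∈ X, ρ d (ρ d' x) ≠ ρ d' (ρ d x)) :
    ∃ (W : ZMod (p i₀) → Submodule k V) (e : ZMod (p i₀) → V →ₗ[k] V) (c : Γ → ZMod (p i₀)),
      Dec (p i₀) ρ D i₀ X W e c ∧ ∀ a, W a < X ∧ W a ≠ ⊥ := by
  haveI := Fact.mk hp
  obtain ⟨z, hz, h, hh, hZ1, hZ2, hZ3, hH1, hH2, hH3⟩ := exists_zh_act i₀ hp hp2 hF hna
  have hzn : ∀ n : ℕ, z ^ n ∈ D i₀ := fun n => (D i₀).pow_mem hz n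
  have hhn : ∀ n : ℕ, h ^ n ∈ D i₀ := fun n => (D i₀).pow_mem hh n
  have hmemX : ∀ g ∈ D i₀, ∀ x ∈ X, ρ g x ∈ X := fun g hg x hx => hF.inv i₀ g hg x hx
  -- commutation of powers of `z`
  have hzcom : ∀ (n : ℕ) (j : I), ∀ d ∈ D j, ∀ x ∈ X, ρ (z ^ n) (ρ d x) = ρ d (ρ (z ^ n) x) := by
    intro n j d hd x hx
    by_cases hj : j = i₀
    · subst hj
      induction n with
      | zero => rw [pow_zero, map_one]; rfl
      | succ n ih =>
        rw [pow_succ', map_mul, Module.End.mul_apply, Module.End.mul_apply, ih,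
          hZ1 d hd _ (hmemX _ (hzn n) x hx)]
    · exact rho_comm ρ (hF.comm i₀ j (Ne.symm hj) _ (hzn n) d hd) x
  set T : ZMod (p i₀) → V →ₗ[k] V := fun a => ρ (z ^ a.val) with hT
  set U : ZMod (p i₀) → V →ₗ[k] V := fun a => ρ (h ^ a.val) with hU
  have hTX : ∀ a, ∀ x ∈ X, T a x ∈ X := fun a x hx => hmemX _ (hzn _) x hx
  have hUX : ∀ a, ∀ x ∈ X, U a x ∈ X := fun a x hx => hmemX _ (hhn _) x hx
  have hTn : ∀ (n : ℕ), ∀ x ∈ X, T n x = ρ (z ^ n) x := by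
    intro n x hx
    show ρ (z ^ (n : ZMod (p i₀)).val) x = _
    rw [ZMod.val_natCast, ← pow_mod_aux hZ3 n x hx]
  have hUn : ∀ (n : ℕ), ∀ x ∈ X, U n x = ρ (h ^ n) x := by
    intro n x hx
    show ρ (h ^ (n : ZMod (p i₀)).val) x = _
    rw [ZMod.val_natCast, ← pow_mod_aux hH1 n x hx]
  have hT0 : ∀ x, T 0 x = x := by
    intro x
    show ρ (z ^ (0 : ZMod (p i₀)).val) x = x
    rw [ZMod.val_zero, pow_zero, map_one]; rfl
  have hU0 : ∀ x, U 0 x = x := by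
    intro x
    show ρ (h ^ (0 : ZMod (p i₀)).val) x = x
    rw [ZMod.val_zero, pow_zero, map_one]; rfl
  have hTadd : ∀ a b, ∀ x ∈ X, T (a + b) x = T a (T b x) := by
    intro a b x hx
    show ρ (z ^ (a + b).val) x = ρ (z ^ a.val) (ρ (z ^ b.val) x)
    rw [ZMod.val_add, ← pow_mod_aux hZ3 _ x hx, pow_add, map_mul, Module.End.mul_apply]
  have hUadd : ∀ a b, ∀ x ∈ X, U (a + b) x = U a (U b x) := by
    intro a b x hx
    show ρ (h ^ (a + b).val) x = ρ (h ^ a.val) (ρ (h ^ b.val) x)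
    rw [ZMod.val_add, ← pow_mod_aux hH1 _ x hx, pow_add, map_mul, Module.End.mul_apply]
  have hTcom : ∀ (a : ZMod (p i₀)) (j : I), ∀ d ∈ D j, ∀ x ∈ X, T a (ρ d x) = ρ d (T a x) :=
    fun a j d hd x hx => hzcom _ j d hd x hx
  have hU1 : ∀ x ∈ X, U 1 x = ρ h x := by
    intro x hx
    have := hUn 1 x hx
    rwa [Nat.cast_one, pow_one] at this
  -- fixed points of `T a`
  have hfix : ∀ a, a ≠ 0 → ∀ x ∈ X, T a x = x → x = 0 := by
    intro a ha x hx hTx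
    by_contra hx0
    have hY := hirr (X ⊓ LinearMap.eqLocus (T a) LinearMap.id) inf_le_left (by
        intro hbot
        have : x ∈ (X ⊓ LinearMap.eqLocus (T a) LinearMap.id : Submodule k V) := ⟨hx, hTx⟩
        rw [hbot] at this
        exact hx0 this) (by
        rintro j d hd y ⟨hy1, hy2⟩
        refine ⟨hF.inv j d hd y hy1, ?_⟩
        show T a (ρ d y) = ρ d y
        rw [hTcom a j d hd y hy1]
        congr 1)
    obtain ⟨y, hy, hne⟩ := hZ2 a.val (by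
      have := (ZMod.val_eq_zero a).not.2 ha
      omega) (ZMod.val_lt a)
    rw [← hY] at hy
    exact hne hy.2
  have hsum0 : ∀ m, m ≠ 0 → ∀ y ∈ X, ∑ a, T (a * m) y = 0 := by
    intro m hm y hy
    have hmem : ∑ a, T (a * m) y ∈ X := X.sum_mem (fun a _ => hTX _ y hy)
    apply hfix m hm _ hmem
    rw [map_sum]
    have h1 : ∀ a, T m (T (a * m) y) = T ((a + 1) * m) y := by
      intro a
      rw [← hTadd m _ y hy]
      congr 2
      ring
    rw [Finset.sum_congr rfl (fun a _ => h1 a)]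
    exact Equiv.sum_comp (Equiv.addRight (1 : ZMod (p i₀))) (fun a => T (a * m) y)
  set P : k := (p i₀ : k) with hP
  set e : ZMod (p i₀) → V →ₗ[k] V := fun a => P⁻¹ • ∑ m, (T (-(a * m))) ∘ₗ (U m) with he
  have hev : ∀ a x, e a x = P⁻¹ • ∑ m, T (-(a * m)) (U m x) := by
    intro a x
    simp only [he, LinearMap.smul_apply, LinearMap.sum_apply, LinearMap.comp_apply]
  have hconst : ∀ x : V, P⁻¹ • ∑ _m : ZMod (p i₀), x = x := by
    intro x
    rw [Finset.sum_const, Finset.card_univ, ZMod.card, ← Nat.cast_smul_eq_nsmul k, ← hP,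
      smul_smul, inv_mul_cancel₀ hpk, one_smul]
  have heX : ∀ a, ∀ x ∈ X, e a x ∈ X := by
    intro a x hx
    rw [hev]
    exact X.smul_mem _ (X.sum_mem fun m _ => hTX _ _ (hUX _ x hx))
  set W : ZMod (p i₀) → Submodule k V := fun a => X ⊓ LinearMap.eqLocus (ρ h) (T a) with hW
  have hWmem : ∀ a x, x ∈ W a ↔ x ∈ X ∧ ρ h x = T a x := fun a x => Iff.rfl
  have he_mem : ∀ a, ∀ x ∈ X, e a x ∈ W a := by
    intro a x hx
    rw [hWmem]
    refine ⟨heX a x hx, ?_⟩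
    rw [hev, map_smul, map_smul, map_sum, map_sum]
    congr 1
    have h1 : ∀ m, ρ h (T (-(a * m)) (U m x)) = T (-(a * ((m + 1) - 1))) (U (m + 1) x) := by
      intro m
      rw [← hTcom _ i₀ h hh _ (hUX m x hx), ← hU1 _ (hUX m x hx), ← hUadd 1 m x hx,
        add_comm 1 m, add_sub_cancel_right]
    have h2 : ∀ m, T a (T (-(a * m)) (U m x)) = T (-(a * (m - 1))) (U m x) := by
      intro m
      rw [← hTadd _ _ _ (hUX m x hx)]
      congr 2
      ring
    rw [Finset.sum_congr rfl (fun m _ => h1 m), Finset.sum_congr rfl (fun m _ => h2 m)]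
    exact Equiv.sum_comp (Equiv.addRight (1 : ZMod (p i₀)))
      (fun m => T (-(a * (m - 1))) (U m x))
  have he_sum : ∀ x ∈ X, ∑ a, e a x = x := by
    intro x hx
    have h1 : ∑ a, e a x = P⁻¹ • ∑ m, ∑ a, T (-(a * m)) (U m x) := by
      simp only [hev]
      rw [← Finset.smul_sum, Finset.sum_comm]
    have h2 : ∀ m, m ≠ 0 → ∑ a, T (-(a * m)) (U m x) = 0 := by
      intro m hm
      have := hsum0 (-m) (neg_ne_zero.2 hm) (U m x) (hUX m x hx)
      simpa [mul_neg] using this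
    rw [h1, Finset.sum_eq_single (0 : ZMod (p i₀)) (fun m _ hm => h2 m hm)
      (fun h0 => absurd (Finset.mem_univ _) h0)]
    have h3 : ∀ a : ZMod (p i₀), T (-(a * 0)) (U 0 x) = x := by
      intro a
      rw [mul_zero, neg_zero, hT0, hU0]
    rw [Finset.sum_congr rfl (fun a _ => h3 a)]
    exact hconst x
  have hUW : ∀ a, ∀ x ∈ W a, ∀ m, U m x = T (m * a) x := by
    intro a x hx m
    obtain ⟨hx1, hx2⟩ := (hWmem a x).1 hx
    have h1 : ∀ n : ℕ, ρ (h ^ n) x = T (n * a) x := by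
      intro n
      induction n with
      | zero => rw [pow_zero, map_one, Nat.cast_zero, zero_mul, hT0]; rfl
      | succ n ih =>
        rw [pow_succ', map_mul, Module.End.mul_apply, ih, ← hTcom _ i₀ h hh x hx1, hx2,
          ← hTadd _ _ x hx1]
        congr 2
        push_cast
        ring
    have h2 := h1 m.val
    rw [ZMod.natCast_val, ZMod.cast_id', id] at h2
    exact h2
  have he_W : ∀ a b, ∀ x ∈ W a, e b x = P⁻¹ • ∑ m, T (m * (a - b)) x := by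
    intro a b x hx
    rw [hev]
    congr 1
    apply Finset.sum_congr rfl
    intro m _
    rw [hUW a x hx m, ← hTadd _ _ x ((hWmem a x).1 hx).1]
    congr 2
    ring
  have he_self : ∀ a, ∀ x ∈ W a, e a x = x := by
    intro a x hx
    rw [he_W a a x hx]
    have h1 : ∀ m : ZMod (p i₀), T (m * (a - a)) x = x := by
      intro m
      rw [sub_self, mul_zero, hT0]
    rw [Finset.sum_congr rfl (fun m _ => h1 m)]
    exact hconst x
  have he_other : ∀ a b, a ≠ b → ∀ x ∈ W a, e b x = 0 := by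
    intro a b hab x hx
    rw [he_W a b x hx, hsum0 (a - b) (sub_ne_zero.2 hab) x ((hWmem a x).1 hx).1, smul_zero]
  -- the shift
  have hcex : ∀ g : Γ, ∃ n : ZMod (p i₀), g ∈ D i₀ →
      ∀ x ∈ X, ρ h (ρ g x) = ρ g (ρ h (T n x)) := by
    intro g
    by_cases hg : g ∈ D i₀
    · obtain ⟨n, hn⟩ := hH3 g hg
      refine ⟨n, fun _ x hx => ?_⟩
      rw [hTn n x hx]
      exact hn x hx
    · exact ⟨0, fun h' => absurd h' hg⟩
  choose c hc using hcex
  have hshift : ∀ d ∈ D i₀, ∀ a, ∀ x ∈ W a, ρ d x ∈ W (a + c d) := by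
    intro d hd a x hx
    obtain ⟨hx1, hx2⟩ := (hWmem a x).1 hx
    refine (hWmem _ _).2 ⟨hmemX d hd x hx1, ?_⟩
    rw [hc d hd x hx1, ← hTcom _ i₀ h hh x hx1, hx2, ← hTadd _ _ x hx1, add_comm (c d) a,
      hTcom _ i₀ d hd x hx1]
  obtain ⟨x₀, hx₀, hx₀0⟩ := (Submodule.ne_bot_iff X).1 hX
  have hinj : ∀ (g : Γ) (x y : V), ρ g x = ρ g y → x = y := by
    intro g x y hxy
    rw [← rho_inv_mul ρ g x, hxy, rho_inv_mul]
  have hTuniq : ∀ n m, T n x₀ = T m x₀ → n = m := by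
    intro n m hnm
    by_contra hne
    apply hx₀0
    apply hfix (n - m) (sub_ne_zero.2 hne) x₀ hx₀
    have h1 : T (n - m) x₀ = T (-m) (T n x₀) := by
      rw [← hTadd _ _ x₀ hx₀]
      congr 2
      ring
    rw [h1, hnm, ← hTadd _ _ x₀ hx₀, neg_add_cancel, hT0]
  have hc_mul : ∀ a ∈ D i₀, ∀ b ∈ D i₀, c (a * b) = c a + c b := by
    intro a ha b hb
    have h1 := hc (a * b) ((D i₀).mul_mem ha hb) x₀ hx₀
    rw [map_mul, Module.End.mul_apply, Module.End.mul_apply, hc a ha _ (hmemX b hb x₀ hx₀),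
      hTcom _ i₀ b hb x₀ hx₀, hc b hb _ (hTX _ x₀ hx₀), ← hTadd _ _ x₀ hx₀] at h1
    have h2 := hinj _ _ _ (hinj _ _ _ (hinj _ _ _ h1))
    rw [add_comm (c a)]
    exact (hTuniq _ _ h2).symm
  have hc_one : c 1 = 0 := by
    have h1 := hc_mul 1 (D i₀).one_mem 1 (D i₀).one_mem
    rw [mul_one] at h1
    simpa using h1
  have hc_pow : ∀ g ∈ D i₀, ∀ m : ℕ, c (g ^ m) = m * c g := by
    intro g hg m
    induction m with
    | zero => simp [hc_one]
    | succ m ih =>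
      rw [pow_succ, hc_mul _ ((D i₀).pow_mem hg m) _ hg, ih]
      push_cast
      ring
  have hWinv : ∀ i, i ≠ i₀ → ∀ d ∈ D i, ∀ a, ∀ x ∈ W a, ρ d x ∈ W a := by
    intro i hi d hd a x hx
    obtain ⟨hx1, hx2⟩ := (hWmem a x).1 hx
    refine (hWmem _ _).2 ⟨hF.inv i d hd x hx1, ?_⟩
    rw [rho_comm ρ (hF.comm i₀ i (Ne.symm hi) h hh d hd), hx2, hTcom a i d hd x hx1]
  have hWle : ∀ a, W a ≤ X := fun a => inf_le_left
  -- some part is nonzero
  have hnz : ∃ a, ∃ x ∈ W a, x ≠ 0 := by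
    by_contra hcon
    push Not at hcon
    apply hx₀0
    rw [← he_sum x₀ hx₀]
    exact Finset.sum_eq_zero (fun a _ => hcon a _ (he_mem a x₀ hx₀))
  obtain ⟨a₀, y₀, hy₀, hy₀0⟩ := hnz
  have hc_ne : ∃ d ∈ D i₀, c d ≠ 0 := by
    by_contra hcon
    push Not at hcon
    have h1 := hirr (W a₀) (hWle a₀) (by
      intro hbot
      rw [hbot] at hy₀
      exact hy₀0 hy₀) (by
      intro i d hd y hy
      by_cases hi : i = i₀
      · subst hi
        have h2 := hshift d hd a₀ y hy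
        rwa [hcon d hd, add_zero] at h2
      · exact hWinv i hi d hd a₀ y hy)
    obtain ⟨x, hx, hne⟩ := hH2 a₀.val
    rw [← h1] at hx
    exact hne ((hWmem a₀ x).1 hx).2
  have hc_surj : ∀ m, ∃ d ∈ D i₀, c d = m := by
    obtain ⟨d, hd, hcd⟩ := hc_ne
    intro m
    refine ⟨d ^ (m * (c d)⁻¹).val, (D i₀).pow_mem hd _, ?_⟩
    rw [hc_pow d hd, ZMod.natCast_val, ZMod.cast_id', id, mul_assoc, inv_mul_cancel₀ hcd, mul_one]
  have hWne : ∀ a, ∃ x ∈ W a, x ≠ 0 := by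
    intro a
    obtain ⟨d, hd, hcd⟩ := hc_surj (a - a₀)
    refine ⟨ρ d y₀, ?_, ?_⟩
    · have h1 := hshift d hd a₀ y₀ hy₀
      rwa [hcd, add_sub_cancel] at h1
    · intro h0
      apply hy₀0
      rw [← rho_inv_mul ρ d y₀, h0, map_zero]
  refine ⟨W, e, c, ⟨hWle, he_mem, he_sum, he_self, he_other, hWinv, hshift, hc_mul, hc_surj⟩, ?_⟩
  intro a
  refine ⟨lt_of_le_of_ne (hWle a) ?_, ?_⟩
  · intro hWX
    obtain ⟨y, hy, hy0⟩ := hWne (a + 1)
    apply hy0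
    rw [← he_self (a + 1) y hy]
    apply he_other a (a + 1) (by
      intro h1
      have h2 : a + 1 = a + 0 := by rw [add_zero]; exact h1.symm
      exact one_ne_zero (add_left_cancel h2))
    rw [hWX]
    exact hWle _ hy
  · intro hbot
    obtain ⟨y, hy, hy0⟩ := hWne a
    rw [hbot] at hy
    exact hy0 hy

end Pool.Agent.T6.H73.SY
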