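import Mathlib

/-!
Nonabelian `p`-groups, `p` odd, contain a normal subgroup of type `(p, p)`.
-/

set_option autoImplicit false

namespace Pool.Agent.T6.H73.SY

open Subgroup

theorem lte_step {p : ℕ} (hp : p.Prime) (hp2 : p ≠ 2) {n : ℕ} {r : ℤ} (hn : 1 ≤ n)
    (h : ((p : ℤ) ^ n) ∣ r ^ p - 1) : ((p : ℤ) ^ (n - 1)) ∣ r - 1 := by
  haveI := Fact.mk hp
  have hodd : Odd p := hp.odd_of_ne_two hp2
  have h1 : (p : ℤ) ∣ r ^ p - 1 := (dvd_pow_self (p : ℤ) (by omega : n ≠ 0)).trans h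
  have h2 : (p : ℤ) ∣ r - 1 := by
    rw [← ZMod.intCast_zmod_eq_zero_iff_dvd] at h1 ⊢
    push_cast at h1 ⊢
    rwa [ZMod.pow_card] at h1
  have h3 : ¬ (p : ℤ) ∣ r := by
    intro h3
    have : (p : ℤ) ∣ 1 := by
      have := dvd_sub h3 h2
      simpa using this
    have h4 := Int.natCast_dvd_natCast.1 (by simpa using this : ((p : ℤ)) ∣ ((1 : ℕ) : ℤ))
    exact hp.one_lt.ne' (Nat.dvd_one.1 h4)
  have h4 := Int.emultiplicity_pow_sub_pow hp hodd (by simpa using h2 : (p : ℤ) ∣ r - 1) h3 p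
  rw [one_pow] at h4
  have h5 : emultiplicity p p = 1 := by
    have := (Nat.finiteMultiplicity_iff.2 ⟨hp.one_lt.ne', hp.pos⟩ : FiniteMultiplicity p p)
    simpa using FiniteMultiplicity.emultiplicity_self this
  rw [h5] at h4
  have h6 : (n : ℕ∞) ≤ emultiplicity (p : ℤ) (r ^ p - 1) := le_emultiplicity_of_pow_dvd h
  rw [h4] at h6
  apply pow_dvd_of_le_emultiplicity
  have h7 : (n : ℕ∞) = ((n - 1 : ℕ) : ℕ∞) + 1 := by
    have : n = (n - 1) + 1 := by omega
    conv_lhs => rw [this]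
    push_cast
    rfl
  rw [h7] at h6
  exact (ENat.add_le_add_iff_right (by simp)).1 h6

theorem pow_mul_aux {P : Type*} [Group P] {x y c : P} (hc : ∀ g : P, c * g = g * c)
    (h : y * x = x * y * c) : ∀ m : ℕ, (x * y) ^ m = x ^ m * y ^ m * c ^ (m.choose 2) := by
  have hcm : ∀ (n : ℕ) (g : P), c ^ n * g = g * c ^ n := by
    intro n g
    exact ((show Commute c g from hc g).pow_left n).eq
  have hy : ∀ m : ℕ, y ^ m * x = x * y ^ m * c ^ m := by
    intro m
    induction m with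
    | zero => simp
    | succ m ih =>
      calc y ^ (m + 1) * x = y * (y ^ m * x) := by rw [pow_succ']; group
        _ = (y * x) * y ^ m * c ^ m := by rw [ih]; group
        _ = x * y * (c * y ^ m) * c ^ m := by rw [h]; group
        _ = x * y * (y ^ m * c) * c ^ m := by rw [hc]
        _ = x * (y * y ^ m) * (c * c ^ m) := by group
        _ = x * y ^ (m + 1) * c ^ (m + 1) := by rw [← pow_succ', ← pow_succ']
  intro m
  induction m with
  | zero => simp
  | succ m ih =>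
    have e : (m + 1).choose 2 = m + m.choose 2 := by
      rw [Nat.choose_succ_succ' m 1, Nat.choose_one_right]
    calc (x * y) ^ (m + 1) = (x * y) ^ m * (x * y) := pow_succ _ _
      _ = x ^ m * y ^ m * (c ^ (m.choose 2) * (x * y)) := by rw [ih]; group
      _ = x ^ m * (y ^ m * x) * y * c ^ (m.choose 2) := by rw [hcm]; group
      _ = x ^ m * x * y ^ m * (c ^ m * y) * c ^ (m.choose 2) := by rw [hy]; group
      _ = x ^ m * x * y ^ m * (y * c ^ m) * c ^ (m.choose 2) := by rw [hcm]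
      _ = (x ^ m * x) * (y ^ m * y) * (c ^ m * c ^ (m.choose 2)) := by group
      _ = x ^ (m + 1) * y ^ (m + 1) * c ^ ((m + 1).choose 2) := by
        rw [← pow_succ, ← pow_succ, ← pow_add, e]

theorem exists_zh {P : Type*} [Group P] [Finite P] {p : ℕ} (hp : p.Prime) (hp2 : p ≠ 2)
    (hP : IsPGroup p P) (hnc : ∃ a b : P, a * b ≠ b * a) :
    ∃ z h : P, (∀ g : P, z * g = g * z) ∧ z ≠ 1 ∧ z ^ p = 1 ∧ h ^ p = 1 ∧
      (∀ k : ℕ, h ≠ z ^ k) ∧ ∀ g : P, ∃ k : ℕ, h * g = g * h * z ^ k := by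
  classical
  haveI := Fact.mk hp
  haveI : Fintype P := Fintype.ofFinite P
  obtain ⟨a₀, b₀, hab⟩ := hnc
  haveI : Nontrivial P := ⟨⟨a₀, 1, by rintro rfl; exact hab (by simp)⟩⟩
  -- a cyclic normal subgroup of maximal order
  obtain ⟨κ, hκ, hmax⟩ := Finset.exists_max_image
    (Finset.univ.filter (fun κ : P => (zpowers κ).Normal)) orderOf
    ⟨1, by
      rw [Finset.mem_filter]
      refine ⟨Finset.mem_univ _, ?_⟩
      rw [zpowers_one_eq_bot]
      infer_instance⟩
  rw [Finset.mem_filter] at hκ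
  have hN : (zpowers κ).Normal := hκ.2
  have hmax' : ∀ b : P, (zpowers b).Normal → orderOf b ≤ orderOf κ := fun b hb =>
    hmax b (by rw [Finset.mem_filter]; exact ⟨Finset.mem_univ _, hb⟩)
  obtain ⟨n, hn⟩ := (IsPGroup.iff_orderOf.1 hP) κ
  have hn1 : 1 ≤ n := by
    by_contra hn0
    have hn0' : n = 0 := by omega
    rw [hn0', pow_zero] at hn
    haveI := hP.center_nontrivial
    have hcp : IsPGroup p (center P) := hP.to_subgroup _
    have hdvd : p ∣ Nat.card (center P) := by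
      rcases hcp.card_eq_or_dvd with h | h
      · have := Finite.one_lt_card (α := center P)
        omega
      · exact h
    obtain ⟨c, hc⟩ := exists_prime_orderOf_dvd_card' p hdvd
    have hcn : (zpowers (c : P)).Normal := by
      constructor
      intro x hx g
      obtain ⟨j, rfl⟩ := mem_zpowers_iff.1 hx
      have : g * (c : P) ^ j * g⁻¹ = (c : P) ^ j := by
        have h1 : g * (c : P) ^ j = (c : P) ^ j * g :=
          (mem_center_iff.1 ((center P).zpow_mem c.2 j)) g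
        rw [h1]; group
      rw [this]; exact hx
    have := hmax' (c : P) hcn
    rw [hn, orderOf_coe, hc] at this
    exact absurd hp.one_lt (by omega)
  have hmem : ∀ j : ℤ, κ ^ j ∈ zpowers κ := fun j => zpow_mem_zpowers κ j
  have hdvd_iff : ∀ j : ℤ, κ ^ j = 1 ↔ ((p : ℤ) ^ n) ∣ j := by
    intro j
    rw [← orderOf_dvd_iff_zpow_eq_one, hn]
    push_cast
    rfl
  -- the element `z`
  set z : P := κ ^ (p ^ (n - 1)) with hz
  have hpn : p ^ (n - 1) * p = p ^ n := by rw [← pow_succ]; congr 1; omega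
  have hpnZ : (p : ℤ) ^ (n - 1) * p = (p : ℤ) ^ n := by exact_mod_cast hpn
  have hz1 : z ≠ 1 := by
    intro h
    have h1 : orderOf κ ∣ p ^ (n - 1) := orderOf_dvd_of_pow_eq_one h
    rw [hn] at h1
    have h2 := Nat.le_of_dvd (pow_pos hp.pos _) h1
    have h3 : p ^ (n - 1) < p ^ n := Nat.pow_lt_pow_right hp.one_lt (by omega)
    omega
  have hzp : z ^ p = 1 := by
    rw [hz, ← pow_mul, hpn, ← hn, pow_orderOf_eq_one]
  have hzj : ∀ j : ℤ, z ^ j = κ ^ ((p : ℤ) ^ (n - 1) * j) := by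
    intro j
    rw [hz, ← zpow_natCast, ← zpow_mul]
    push_cast
    rfl
  -- conjugation of `κ`
  have hconj : ∀ g : P, ∃ s : ℤ, g * κ * g⁻¹ = κ ^ s := by
    intro g
    obtain ⟨s, hs⟩ := mem_zpowers_iff.1 (hN.conj_mem κ (mem_zpowers κ) g)
    exact ⟨s, hs.symm⟩
  have hconjpow : ∀ (g : P) (s : ℤ), g * κ * g⁻¹ = κ ^ s → ∀ m : ℕ,
      g ^ m * κ * (g ^ m)⁻¹ = κ ^ (s ^ m) := by
    intro g s hs m
    induction m with
    | zero => simp
    | succ m ih =>
      have h1 : g ^ (m + 1) * κ * (g ^ (m + 1))⁻¹ = g * (g ^ m * κ * (g ^ m)⁻¹) * g⁻¹ := by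
        rw [pow_succ']; group
      rw [h1, ih, ← conj_zpow, hs, ← zpow_mul, pow_succ']
  have hzc : ∀ g : P, z * g = g * z := by
    intro g
    obtain ⟨s, hs⟩ := hconj g
    obtain ⟨m, hm⟩ := hP g
    have h1 := hconjpow g s hs (p ^ m)
    rw [hm] at h1
    have h2 : κ ^ (s ^ (p ^ m) - 1) = 1 := by
      rw [zpow_sub, zpow_one, ← h1]; group
    rw [hdvd_iff] at h2
    have h3 : (p : ℤ) ∣ s ^ (p ^ m) - 1 := (dvd_pow_self (p : ℤ) (by omega : n ≠ 0)).trans h2
    have h4 : (p : ℤ) ∣ s - 1 := by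
      rw [← ZMod.intCast_zmod_eq_zero_iff_dvd] at h3 ⊢
      push_cast at h3 ⊢
      rwa [ZMod.pow_card_pow] at h3
    obtain ⟨s', hs'⟩ := h4
    have h5 : g * z * g⁻¹ = z := by
      have h6 : g * z * g⁻¹ = (g * κ * g⁻¹) ^ (p ^ (n - 1)) := by
        rw [conj_pow]
      rw [h6, hs, ← zpow_natCast, ← zpow_mul]
      have h7 : s * ((p ^ (n - 1) : ℕ) : ℤ) = ((p ^ (n - 1) : ℕ) : ℤ) + (p : ℤ) ^ n * s' := by
        have : s = 1 + p * s' := by linarith
        rw [this, ← hpnZ]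
        push_cast
        ring
      rw [h7, zpow_add, (hdvd_iff _).2 (dvd_mul_right _ _), mul_one, zpow_natCast]
    calc z * g = g * z * g⁻¹ * g := by rw [h5]
      _ = g * z := by group
  -- the quotient
  have hKtop : zpowers κ ≠ ⊤ := by
    intro htop
    apply hab
    have ha : a₀ ∈ zpowers κ := by rw [htop]; trivial
    have hb : b₀ ∈ zpowers κ := by rw [htop]; trivial
    obtain ⟨i, rfl⟩ := mem_zpowers_iff.1 ha
    obtain ⟨j, rfl⟩ := mem_zpowers_iff.1 hb
    rw [← zpow_add, ← zpow_add, add_comm]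
  haveI : Nontrivial (P ⧸ zpowers κ) := by
    rw [← not_subsingleton_iff_nontrivial]
    intro hs
    exact hKtop (QuotientGroup.subgroup_eq_top_of_subsingleton _ hs)
  have hPQ : IsPGroup p (P ⧸ zpowers κ) := hP.to_quotient _
  haveI := hPQ.center_nontrivial
  have hcp : IsPGroup p (center (P ⧸ zpowers κ)) := hPQ.to_subgroup _
  have hdvd : p ∣ Nat.card (center (P ⧸ zpowers κ)) := by
    rcases hcp.card_eq_or_dvd with h | h
    · have := Finite.one_lt_card (α := center (P ⧸ zpowers κ))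
      omega
    · exact h
  obtain ⟨⟨bq, hbq⟩, hbo⟩ := exists_prime_orderOf_dvd_card' p hdvd
  obtain ⟨b, rfl⟩ := QuotientGroup.mk_surjective bq
  rw [Subgroup.orderOf_mk] at hbo
  have hbK : b ∉ zpowers κ := by
    intro h
    rw [(QuotientGroup.eq_one_iff b).2 h, orderOf_one] at hbo
    exact hp.one_lt.ne hbo
  have hbp : b ^ p ∈ zpowers κ := by
    rw [← QuotientGroup.eq_one_iff, QuotientGroup.mk_pow, ← hbo, pow_orderOf_eq_one]
  have hbc : ∀ g : P, b⁻¹ * (g⁻¹ * b * g) ∈ zpowers κ := by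
    intro g
    have h1 := (mem_center_iff.1 hbq) (g : P ⧸ zpowers κ)
    rw [← QuotientGroup.eq_one_iff]
    have h2 : (g : P ⧸ zpowers κ)⁻¹ * (b : P ⧸ zpowers κ) * (g : P ⧸ zpowers κ) =
        (b : P ⧸ zpowers κ) := by
      rw [mul_assoc, ← h1]; group
    simp only [QuotientGroup.mk_mul, QuotientGroup.mk_inv]
    rw [h2]; group
  -- commutators of `b` and `κ`
  obtain ⟨r, hr⟩ := hconj b
  obtain ⟨t, ht⟩ := mem_zpowers_iff.1 hbp
  have hrp : ((p : ℤ) ^ n) ∣ r ^ p - 1 := by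
    rw [← hdvd_iff, zpow_sub, zpow_one, ← hconjpow b r hr p, ← ht]
    group
  obtain ⟨c, hc⟩ := lte_step hp hp2 hn1 hrp
  have hbκ : ∀ j : ℤ, κ ^ j * b = b * κ ^ j * z ^ (-(c * j)) := by
    intro j
    have h1 : b * κ ^ j * b⁻¹ = κ ^ j * z ^ (c * j) := by
      rw [← conj_zpow, hr, ← zpow_mul, hzj, ← zpow_add]
      congr 1
      have : r = 1 + (p : ℤ) ^ (n - 1) * c := by linarith
      rw [this]
      ring
    have h2 : b * κ ^ j = κ ^ j * z ^ (c * j) * b := by
      rw [← h1]; group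
    have h3 : ∀ (m : ℤ) (g : P), z ^ m * g = g * z ^ m := fun m g =>
      ((show Commute z g from hzc g).zpow_left m).eq
    rw [h2, mul_assoc, mul_assoc, ← h3, ← mul_assoc, ← mul_assoc]
    rw [mul_assoc (κ ^ j), ← zpow_add]
    simp
  have hzcz : ∀ (m : ℤ) (g : P), z ^ m * g = g * z ^ m := fun m g =>
    ((show Commute z g from hzc g).zpow_left m).eq
  have hchoose : ∀ m : ℤ, (z ^ m) ^ (p.choose 2) = 1 := by
    intro m
    obtain ⟨d, hd⟩ := hp.dvd_choose_self (k := 2) (by norm_num)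
      (by have := hp.two_le; omega)
    have h1 : (z ^ m) ^ p = 1 := by
      rw [← zpow_natCast, ← zpow_mul, mul_comm, zpow_mul, zpow_natCast, hzp, one_zpow]
    rw [hd, pow_mul, h1, one_pow]
  -- `p ∣ t`
  have hpt : (p : ℤ) ∣ t := by
    by_contra hpt
    have hcop : IsCoprime t ((p : ℤ) ^ n) := by
      apply IsCoprime.pow_right
      exact ((Nat.prime_iff_prime_int.1 hp).coprime_iff_not_dvd.2 hpt).symm
    obtain ⟨u, v, huv⟩ := hcop
    have hκb : κ ∈ zpowers b := by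
      have h1 : κ = (b ^ p) ^ u := by
        rw [← ht, ← zpow_mul]
        have h2 : κ ^ (t * u) = κ ^ (1 - v * (p : ℤ) ^ n) := by
          congr 1; linarith
        rw [h2, zpow_sub, zpow_one, (hdvd_iff _).2 (dvd_mul_left _ _)]
        simp
      rw [h1]
      exact (zpowers b).zpow_mem ((zpowers b).pow_mem (mem_zpowers b) p) u
    have hle : zpowers κ ≤ zpowers b := by rwa [zpowers_le]
    have hbn : (zpowers b).Normal := by
      constructor
      intro x hx g
      obtain ⟨j, rfl⟩ := mem_zpowers_iff.1 hx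
      have h1 : g * b * g⁻¹ ∈ zpowers b := by
        have h2 := hle (hbc g⁻¹)
        have h3 : g * b * g⁻¹ = b * (b⁻¹ * ((g⁻¹)⁻¹ * b * g⁻¹)) := by group
        rw [h3]
        exact (zpowers b).mul_mem (mem_zpowers b) h2
      rw [← conj_zpow]
      exact (zpowers b).zpow_mem h1 j
    have h1 := hmax' b hbn
    have h2 : zpowers κ = zpowers b := by
      apply Subgroup.eq_of_le_of_card_ge hle
      rw [Nat.card_zpowers, Nat.card_zpowers]
      exact h1
    exact hbK (h2 ▸ mem_zpowers b)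
  obtain ⟨t', rfl⟩ := hpt
  set h : P := b * κ ^ (-t') with hh
  have hhp : h ^ p = 1 := by
    rw [hh, pow_mul_aux (c := z ^ (-(c * -t'))) (hzcz _) (hbκ _), hchoose, mul_one, ← ht,
      ← zpow_natCast, ← zpow_mul, ← zpow_add]
    have : (p : ℤ) * t' + -t' * (p : ℤ) = 0 := by ring
    rw [this, zpow_zero]
  have hhκ : ∀ j : ℤ, κ ^ j * h = h * κ ^ j * z ^ (-(c * j)) := by
    intro j
    rw [hh, ← mul_assoc, hbκ j, mul_assoc (b * κ ^ j), hzcz, ← mul_assoc]
    congr 1
    rw [mul_assoc, mul_assoc, ← zpow_add, ← zpow_add, add_comm]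
  have hhK : h ∉ zpowers κ := by
    intro h1
    apply hbK
    have : b = h * κ ^ t' := by rw [hh]; group
    rw [this]
    exact (zpowers κ).mul_mem h1 (hmem _)
  refine ⟨z, h, hzc, hz1, hzp, hhp, ?_, ?_⟩
  · intro k hk
    apply hhK
    rw [hk, hz, ← pow_mul]
    exact (zpowers κ).pow_mem (mem_zpowers κ) _
  · intro g
    have h1 : h⁻¹ * (g⁻¹ * h * g) ∈ zpowers κ := by
      have h2 : h⁻¹ * (g⁻¹ * h * g) =
          (κ ^ t' * (b⁻¹ * (g⁻¹ * b * g)) * (κ ^ t')⁻¹) *
            (κ ^ t' * (g⁻¹ * κ ^ (-t') * g⁻¹⁻¹)) := by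
        rw [hh]; group
      rw [h2]
      refine (zpowers κ).mul_mem (hN.conj_mem _ (hbc g) _) ((zpowers κ).mul_mem (hmem _) ?_)
      exact hN.conj_mem _ (hmem _) _
    obtain ⟨j, hj⟩ := mem_zpowers_iff.1 h1
    have h3 : g⁻¹ * h * g = h * κ ^ j := by rw [hj]; group
    have h4 : (h * κ ^ j) ^ p = 1 := by
      rw [← h3]
      have : (g⁻¹ * h * g) ^ p = g⁻¹ * h ^ p * g := by
        have := conj_pow (i := p) (a := g⁻¹) (b := h)
        simpa using this
      rw [this, hhp]; group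
    rw [pow_mul_aux (c := z ^ (-(c * j))) (hzcz _) (hhκ _), hchoose, hhp, mul_one, one_mul,
      ← zpow_natCast, ← zpow_mul, hdvd_iff] at h4
    have h5 : (p : ℤ) ^ (n - 1) ∣ j := by
      rw [← hpnZ] at h4
      exact (mul_dvd_mul_iff_right (by exact_mod_cast hp.ne_zero)).1 h4
    obtain ⟨j', rfl⟩ := h5
    have h6 : κ ^ ((p : ℤ) ^ (n - 1) * j') = z ^ (j' % (p : ℤ)).toNat := by
      rw [← hzj, ← zpow_natCast z, Int.toNat_of_nonneg
        (Int.emod_nonneg _ (by exact_mod_cast hp.ne_zero))]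
      have h7 : z ^ j' = z ^ (j' % (p : ℤ) + (p : ℤ) * (j' / p)) := by
        rw [Int.emod_add_mul_ediv]
      rw [h7, zpow_add, zpow_mul, zpow_natCast, hzp, one_zpow, mul_one]
    refine ⟨(j' % (p : ℤ)).toNat, ?_⟩
    rw [← h6]
    calc h * g = g * (g⁻¹ * h * g) := by group
      _ = g * (h * κ ^ ((p : ℤ) ^ (n - 1) * j')) := by rw [h3]
      _ = g * h * κ ^ ((p : ℤ) ^ (n - 1) * j') := by group

end Pool.Agent.T6.H73.SY
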