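import Pool.Agent.T6.H73.SY.Rep

/-!
The imprimitive case: counting.
-/

set_option autoImplicit false

namespace Pool.Agent.T6.H73.SY

open scoped Classical

variable {k : Type*} [Field k] {V : Type*} [AddCommGroup V] [Module k V] {Γ : Type*} [Group Γ]
variable {I : Type*}

/-- a decomposition of `X` into `p₀` parts, permuted by `D i₀` and invariant under the others -/
structure Dec (p₀ : ℕ) [NeZero p₀] (ρ : Γ →* Module.End k V) (D : I → Subgroup Γ) (i₀ : I)
    (X : Submodule k V) (W : ZMod p₀ → Submodule k V) (e : ZMod p₀ → V →ₗ[k] V)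
    (c : Γ → ZMod p₀) : Prop where
  le : ∀ a, W a ≤ X
  e_mem : ∀ a, ∀ x ∈ X, e a x ∈ W a
  e_sum : ∀ x ∈ X, ∑ a, e a x = x
  e_self : ∀ a, ∀ x ∈ W a, e a x = x
  e_other : ∀ a b, a ≠ b → ∀ x ∈ W a, e b x = 0
  inv : ∀ i, i ≠ i₀ → ∀ d ∈ D i, ∀ a, ∀ x ∈ W a, ρ d x ∈ W a
  shift : ∀ d ∈ D i₀, ∀ a, ∀ x ∈ W a, ρ d x ∈ W (a + c d)
  c_mul : ∀ a ∈ D i₀, ∀ b ∈ D i₀, c (a * b) = c a + c b
  c_surj : ∀ m, ∃ d ∈ D i₀, c d = m

namespace Dec

variable {p₀ : ℕ} [NeZero p₀] {ρ : Γ →* Module.End k V} {D : I → Subgroup Γ} {i₀ : I}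
  {X : Submodule k V} {W : ZMod p₀ → Submodule k V} {e : ZMod p₀ → V →ₗ[k] V}
  {c : Γ → ZMod p₀}

theorem c_one (h : Dec p₀ ρ D i₀ X W e c) : c 1 = 0 := by
  have h1 := h.c_mul 1 (D i₀).one_mem 1 (D i₀).one_mem
  rw [mul_one] at h1
  simpa using h1

theorem c_inv (h : Dec p₀ ρ D i₀ X W e c) {g : Γ} (hg : g ∈ D i₀) : c g⁻¹ = - c g := by
  have h1 := h.c_mul g⁻¹ ((D i₀).inv_mem hg) g hg
  rw [inv_mul_cancel, h.c_one] at h1
  exact eq_neg_of_add_eq_zero_left h1.symm

theorem c_pow (h : Dec p₀ ρ D i₀ X W e c) {g : Γ} (hg : g ∈ D i₀) (m : ℕ) :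
    c (g ^ m) = m * c g := by
  induction m with
  | zero => simp [h.c_one]
  | succ m ih =>
    rw [pow_succ, h.c_mul _ ((D i₀).pow_mem hg m) _ hg, ih]
    push_cast
    ring

/-- the subgroup preserving the parts -/
def B (h : Dec p₀ ρ D i₀ X W e c) : Subgroup Γ where
  carrier := {g | g ∈ D i₀ ∧ c g = 0}
  one_mem' := ⟨(D i₀).one_mem, h.c_one⟩
  mul_mem' := by
    rintro a b ⟨ha, ha'⟩ ⟨hb, hb'⟩
    exact ⟨(D i₀).mul_mem ha hb, by rw [h.c_mul a ha b hb, ha', hb', add_zero]⟩
  inv_mem' := by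
    rintro a ⟨ha, ha'⟩
    exact ⟨(D i₀).inv_mem ha, by rw [h.c_inv ha, ha', neg_zero]⟩

theorem mem_B (h : Dec p₀ ρ D i₀ X W e c) {g : Γ} : g ∈ h.B ↔ g ∈ D i₀ ∧ c g = 0 := Iff.rfl

theorem B_le (h : Dec p₀ ρ D i₀ X W e c) : h.B ≤ D i₀ := fun _ hg => hg.1

theorem B_relIndex (h : Dec p₀ ρ D i₀ X W e c) : h.B.relIndex (D i₀) ≤ p₀ := by
  let φ : D i₀ →* Multiplicative (ZMod p₀) :=
    { toFun := fun g => Multiplicative.ofAdd (c g)
      map_one' := by
        show Multiplicative.ofAdd (c ((1 : D i₀) : Γ)) = 1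
        rw [Subgroup.coe_one, h.c_one]; rfl
      map_mul' := by
        intro a b
        rw [Subgroup.coe_mul, h.c_mul a a.2 b b.2]; rfl }
  have h1 : h.B.subgroupOf (D i₀) = φ.ker := by
    ext g
    rw [Subgroup.mem_subgroupOf, MonoidHom.mem_ker, mem_B]
    constructor
    · rintro ⟨-, h2⟩
      show Multiplicative.ofAdd (c g) = 1
      rw [h2]; rfl
    · intro h2
      exact ⟨g.2, h2⟩
  have h2 : h.B.relIndex (D i₀) = Nat.card φ.range := by
    rw [Subgroup.relIndex, h1, Subgroup.index_ker]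
  rw [h2]
  have h3 : Nat.card φ.range ≤ Nat.card (Multiplicative (ZMod p₀)) :=
    Nat.card_le_card_of_injective _ Subtype.val_injective
  have h4 : Nat.card (Multiplicative (ZMod p₀)) = p₀ := by
    rw [Nat.card_congr (Multiplicative.toAdd (α := ZMod p₀)), Nat.card_zmod]
  omega

theorem e_sum_mem (h : Dec p₀ ρ D i₀ X W e c) {t : ZMod p₀ → V} (ht : ∀ a, t a ∈ W a)
    (a : ZMod p₀) : e a (∑ b, t b) = t a := by
  rw [map_sum, Finset.sum_eq_single a]
  · exact h.e_self a _ (ht a)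
  · intro b _ hb
    exact h.e_other b a hb _ (ht b)
  · intro ha
    exact absurd (Finset.mem_univ a) ha

theorem e_rho (h : Dec p₀ ρ D i₀ X W e c) {i : I} (hi : i ≠ i₀) {d : Γ} (hd : d ∈ D i)
    {x : V} (hx : x ∈ X) (a : ZMod p₀) : e a (ρ d x) = ρ d (e a x) := by
  have h1 : ρ d x = ∑ b, ρ d (e b x) := by
    rw [← map_sum, h.e_sum x hx]
  rw [h1]
  exact h.e_sum_mem (t := fun b => ρ d (e b x))
    (fun b => h.inv i hi d hd b _ (h.e_mem b x hx)) a

theorem e_rho' (h : Dec p₀ ρ D i₀ X W e c) {d : Γ} (hd : d ∈ D i₀)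
    {x : V} (hx : x ∈ X) (a : ZMod p₀) : e (a + c d) (ρ d x) = ρ d (e a x) := by
  have h0 : ∑ b, e (b - c d) x = x :=
    (Equiv.sum_comp (Equiv.subRight (c d)) (fun b => e b x)).trans (h.e_sum x hx)
  have h1 : ρ d x = ∑ b, ρ d (e (b - c d) x) := by
    rw [← map_sum, h0]
  rw [h1]
  have h2 := h.e_sum_mem (t := fun b => ρ d (e (b - c d) x))
    (fun b => by
      have := h.shift d hd (b - c d) _ (h.e_mem (b - c d) x hx)
      rwa [sub_add_cancel] at this) (a + c d)
  rw [h2]
  simp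

theorem ker_eq (h : Dec p₀ ρ D i₀ X W e c) : Ker ρ X = ⨅ a, Ker ρ (W a) := by
  ext g
  rw [Subgroup.mem_iInf]
  constructor
  · intro hg a x hx
    exact hg x (h.le a hx)
  · intro hg x hx
    rw [← h.e_sum x hx, map_sum]
    exact Finset.sum_congr rfl (fun a _ => hg a _ (h.e_mem a x hx))

end Dec

theorem relIndex_ne [Finite Γ] (H K : Subgroup Γ) : H.relIndex K ≠ 0 := by
  rw [Subgroup.relIndex]
  exact Subgroup.index_ne_zero_of_finite

theorem orbit_card [Finite V] [Finite Γ] (ρ : Γ →* Module.End k V) (B : Subgroup Γ)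
    (W : Submodule k V) {w : V} (hw : w ∈ W) :
    Nat.card {x : V | ∃ β ∈ B, x = ρ β w} ≤ (Ker ρ W).relIndex B := by
  have hch : ∀ x : {x : V | ∃ β ∈ B, x = ρ β w}, ∃ β : B, (x : V) = ρ (β : Γ) w := by
    rintro ⟨x, β, hβ, hx⟩
    exact ⟨⟨β, hβ⟩, hx⟩
  choose f hf using hch
  have h1 : Nat.card {x : V | ∃ β ∈ B, x = ρ β w} ≤
      Nat.card (B ⧸ (Ker ρ W).subgroupOf B) := by
    apply Nat.card_le_card_of_injective (fun x => (f x : B ⧸ (Ker ρ W).subgroupOf B))
    intro x y hxy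
    have h2 := QuotientGroup.eq.1 hxy
    rw [Subgroup.mem_subgroupOf] at h2
    have h3 := h2 w hw
    apply Subtype.ext
    rw [hf x, hf y]
    have h4 : ρ (f x : Γ) (ρ (((f x)⁻¹ * f y : B) : Γ) w) = ρ (f x : Γ) w := by rw [h3]
    rw [← h4, ← Module.End.mul_apply, ← map_mul]
    simp
  exact h1

theorem pow_aux {p : ℕ} (h : 3 ≤ p) : p + 1 ≤ 2 ^ (p - 1) := by
  induction p, h using Nat.le_induction with
  | base => norm_num
  | succ n hn ih =>
    have h1 : n + 1 - 1 = (n - 1) + 1 := by omega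
    rw [h1, pow_succ]
    omega

theorem case_imp [Finite V] [Finite Γ] {p : I → ℕ} (i₀ : I) (hp : (p i₀).Prime)
    (hp2 : p i₀ ≠ 2) [NeZero (p i₀)] {ρ : Γ →* Module.End k V} {D : I → Subgroup Γ}
    {X : Submodule k V}
    (hF : Fam p ρ D X) {W : ZMod (p i₀) → Submodule k V} {e : ZMod (p i₀) → V →ₗ[k] V}
    {c : Γ → ZMod (p i₀)} (hD : Dec (p i₀) ρ D i₀ X W e c) (hT : ∀ a, TC p ρ (W a))
    (u : I → V) (hu : ∀ i, u i ∈ X) (i : I) :
    2 * (Ker ρ X).relIndex (D i) ≤ Nat.card (Good ρ D X u) := by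
  haveI : Fintype V := Fintype.ofFinite V
  haveI := Fact.mk hp
  set B := hD.B with hB
  set D' : I → Subgroup Γ := Function.update D i₀ B with hD'
  have hD'0 : D' i₀ = B := by rw [hD']; exact Function.update_self _ _ _
  have hD'j : ∀ j, j ≠ i₀ → D' j = D j := fun j hj => by
    rw [hD']; exact Function.update_of_ne hj _ _
  have hle : ∀ j, D' j ≤ D j := by
    intro j
    by_cases hj : j = i₀
    · subst hj; rw [hD'0]; exact hD.B_le
    · rw [hD'j j hj]
  have hF' : ∀ a, Fam p ρ D' (W a) := by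
    intro a
    refine ⟨fun j => (hF.pg j).to_le (hle j), fun i j hij x hx y hy =>
      hF.comm i j hij x (hle i hx) y (hle j hy), ?_⟩
    intro j d hd x hx
    by_cases hj : j = i₀
    · subst hj
      rw [hD'0] at hd
      have h1 := hD.shift d hd.1 a x hx
      rwa [hd.2, add_zero] at h1
    · exact hD.inv j hj d (hle j hd) a x hx
  -- the good vectors in the parts
  set G : ZMod (p i₀) → Finset V := fun a =>
    Finset.univ.filter (fun v => v ∈ Good ρ D' (W a) (fun i => e a (u i))) with hG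
  have hGmem : ∀ a v, v ∈ G a ↔ v ∈ Good ρ D' (W a) (fun i => e a (u i)) := by
    intro a v; rw [hG]; simp
  have hGcard : ∀ a, (G a).card = Nat.card (Good ρ D' (W a) (fun i => e a (u i))) := by
    intro a
    rw [Nat.card_eq_fintype_card, Fintype.card_subtype]
  have hN : ∀ a j, 2 * (Ker ρ (W a)).relIndex (D' j) ≤ (G a).card := by
    intro a j
    rw [hGcard]
    exact hT a D' (hF' a) _ (fun i => hD.e_mem a _ (hu i)) j
  set b : ZMod (p i₀) → ℕ := fun a => (Ker ρ (W a)).relIndex B with hb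
  have hNb : ∀ a, 2 * b a ≤ (G a).card := by
    intro a
    have := hN a i₀
    rwa [hD'0] at this
  have hb1 : ∀ a, 1 ≤ b a := fun a => Nat.one_le_iff_ne_zero.2 (relIndex_ne _ _)
  choose γ hγ hγc using hD.c_surj
  have hwa : ∀ a, e a (u i₀) ∈ W a := fun a => hD.e_mem a _ (hu i₀)
  -- tuples
  set T : Finset (ZMod (p i₀) → V) := Fintype.piFinset G with hTdef
  set Q : (ZMod (p i₀) → V) → Prop := fun t => ∀ a, a ≠ 0 →
    ∃ β ∈ B, e a (u i₀) + t a = ρ β (ρ (γ a) (e 0 (u i₀) + t 0)) with hQ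
  set O : ZMod (p i₀) → V → Finset V := fun a v => Finset.univ.filter
    (fun x => ∃ β ∈ B, e a (u i₀) + x = ρ β (ρ (γ a) (e 0 (u i₀) + v))) with hO
  have hOcard : ∀ a, ∀ v ∈ G 0, (O a v).card ≤ b a := by
    intro a v hv
    have hv' : v ∈ W 0 := ((hGmem 0 v).1 hv).1
    have hw : ρ (γ a) (e 0 (u i₀) + v) ∈ W a := by
      have h1 := hD.shift (γ a) (hγ a) 0 _ ((W 0).add_mem (hwa 0) hv')
      rwa [hγc a, zero_add] at h1
    have h1 := orbit_card ρ B (W a) hw
    refine le_trans ?_ h1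
    rw [Nat.card_eq_fintype_card, Fintype.card_subtype]
    apply Finset.card_le_card_of_injOn (fun x => e a (u i₀) + x)
    · intro x hx
      have hx' := (Finset.mem_filter.1 hx).2
      rw [Finset.mem_coe, Finset.mem_filter]
      exact ⟨Finset.mem_univ _, hx'⟩
    · intro x _ y _ hxy
      exact add_left_cancel hxy
  have hcT : T.card = (G 0).card * ∏ a ∈ Finset.univ.erase (0 : ZMod (p i₀)), (G a).card := by
    rw [hTdef, Fintype.card_piFinset]
    exact (Finset.mul_prod_erase _ (fun a => (G a).card) (Finset.mem_univ _)).symm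
  have hcBad : (T.filter Q).card ≤
      (G 0).card * ∏ a ∈ Finset.univ.erase (0 : ZMod (p i₀)), b a := by
    have hsub : T.filter Q ⊆ (G 0).biUnion (fun v => Fintype.piFinset
        (fun a => if a = 0 then {v} else O a v)) := by
      intro t ht
      rw [Finset.mem_filter] at ht
      obtain ⟨ht1, ht2⟩ := ht
      have ht3 := Fintype.mem_piFinset.1 ht1
      rw [Finset.mem_biUnion]
      refine ⟨t 0, ht3 0, ?_⟩
      rw [Fintype.mem_piFinset]
      intro a
      by_cases ha : a = 0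
      · subst ha; simp
      · rw [if_neg ha, hO, Finset.mem_filter]
        exact ⟨Finset.mem_univ _, ht2 a ha⟩
    refine (Finset.card_le_card hsub).trans (Finset.card_biUnion_le.trans ?_)
    have h1 : ∀ v ∈ G 0, (Fintype.piFinset
        (fun a => if a = 0 then ({v} : Finset V) else O a v)).card ≤
        ∏ a ∈ Finset.univ.erase (0 : ZMod (p i₀)), b a := by
      intro v hv
      rw [Fintype.card_piFinset, ← Finset.mul_prod_erase _ _ (Finset.mem_univ (0 : ZMod (p i₀))),
        if_pos rfl, Finset.card_singleton, one_mul]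
      apply Finset.prod_le_prod' 
      intro a ha
      rw [if_neg (Finset.ne_of_mem_erase ha)]
      exact hOcard a v hv
    calc ∑ v ∈ G 0, (Fintype.piFinset
        (fun a => if a = 0 then ({v} : Finset V) else O a v)).card ≤
        ∑ v ∈ G 0, ∏ a ∈ Finset.univ.erase (0 : ZMod (p i₀)), b a := Finset.sum_le_sum h1
      _ = _ := by rw [Finset.sum_const, smul_eq_mul]
  -- the sum of a tuple which is not bad is good
  have hgood : ∀ t ∈ T.filter (fun t => ¬ Q t), ∑ a, t a ∈ Good ρ D X u := by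
    intro t ht
    rw [Finset.mem_filter] at ht
    obtain ⟨ht1, ht2⟩ := ht
    have ht3 : ∀ a, t a ∈ Good ρ D' (W a) (fun i => e a (u i)) := fun a =>
      (hGmem a _).1 (Fintype.mem_piFinset.1 ht1 a)
    have ht4 : ∀ a, t a ∈ W a := fun a => (ht3 a).1
    have htX : ∑ a, t a ∈ X := X.sum_mem (fun a _ => hD.le a (ht4 a))
    have hcomp : ∀ (j : I) (a : ZMod (p i₀)), e a (u j + ∑ b, t b) = e a (u j) + t a := by
      intro j a
      rw [map_add, hD.e_sum_mem ht4]
    refine ⟨htX, ?_⟩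
    intro j d hd hfix
    have hX' : u j + ∑ a, t a ∈ X := X.add_mem (hu j) htX
    by_cases hj : j = i₀
    · subst hj
      by_cases hcd : c d = 0
      · rw [hD.ker_eq, Subgroup.mem_iInf]
        intro a
        apply (ht3 a).2 j d (by rw [hD'0]; exact ⟨hd, hcd⟩)
        show ρ d (e a (u j) + t a) = e a (u j) + t a
        rw [← hcomp j a, ← hD.e_rho' hd hX' a, hfix, hcd, add_zero]
      · exfalso
        apply ht2
        intro a ha
        have hiter : ∀ m : ℕ, e (m * c d) (u j + ∑ b, t b) =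
            ρ (d ^ m) (e 0 (u j + ∑ b, t b)) := by
          intro m
          induction m with
          | zero => simp
          | succ m ih =>
            have h1 : ((m + 1 : ℕ) : ZMod (p j)) * c d = m * c d + c d := by
              push_cast; ring
            rw [h1, pow_succ', map_mul, Module.End.mul_apply, ← ih]
            have h2 := hD.e_rho' hd hX' (m * c d)
            rw [hfix] at h2
            exact h2
        have h1 := hiter (a * (c d)⁻¹).val
        rw [ZMod.natCast_val, ZMod.cast_id', id, mul_assoc, inv_mul_cancel₀ hcd, mul_one,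
          hcomp, hcomp] at h1
        refine ⟨d ^ (a * (c d)⁻¹).val * (γ a)⁻¹, ⟨(D j).mul_mem ((D j).pow_mem hd _)
          ((D j).inv_mem (hγ a)), ?_⟩, ?_⟩
        · rw [hD.c_mul _ ((D j).pow_mem hd _) _ ((D j).inv_mem (hγ a)), hD.c_pow hd,
            hD.c_inv (hγ a), hγc, ZMod.natCast_val, ZMod.cast_id', id, mul_assoc,
            inv_mul_cancel₀ hcd, mul_one, add_neg_cancel]
        · rw [h1, map_mul, Module.End.mul_apply, rho_inv_mul]
    · rw [hD.ker_eq, Subgroup.mem_iInf]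
      intro a
      apply (ht3 a).2 j d (by rw [hD'j j hj]; exact hd)
      show ρ d (e a (u j) + t a) = e a (u j) + t a
      rw [← hcomp j a, ← hD.e_rho hj hd hX' a, hfix]
  have hcount : (T.filter (fun t => ¬ Q t)).card ≤ Nat.card (Good ρ D X u) := by
    rw [Nat.card_eq_fintype_card, Fintype.card_subtype]
    apply Finset.card_le_card_of_injOn (fun t => ∑ a, t a)
    · intro t ht
      rw [Finset.mem_coe, Finset.mem_filter]
      exact ⟨Finset.mem_univ _, hgood t ht⟩
    · intro t ht t' ht' htt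
      have h1 : ∀ s ∈ T.filter (fun t => ¬ Q t), ∀ a, s a ∈ W a := by
        intro s hs a
        exact ((hGmem a _).1 (Fintype.mem_piFinset.1 (Finset.mem_filter.1 hs).1 a)).1
      funext a
      rw [← hD.e_sum_mem (h1 t ht) a, ← hD.e_sum_mem (h1 t' ht') a]
      exact congrArg (e a) htt
  have htot : T.card = (T.filter Q).card + (T.filter (fun t => ¬ Q t)).card :=
    (Finset.card_filter_add_card_filter_not _).symm
  set Pb := ∏ a ∈ Finset.univ.erase (0 : ZMod (p i₀)), b a with hPb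
  set PN := ∏ a ∈ Finset.univ.erase (0 : ZMod (p i₀)), (G a).card with hPN
  have hPb1 : 1 ≤ Pb := Finset.one_le_prod' (fun a _ => hb1 a)
  have hprod : (p i₀ + 1) * Pb ≤ PN := by
    have h3 : 3 ≤ p i₀ := by have := hp.two_le; omega
    have hcard : (Finset.univ.erase (0 : ZMod (p i₀))).card = p i₀ - 1 := by
      rw [Finset.card_erase_of_mem (Finset.mem_univ _), Finset.card_univ, ZMod.card]
    calc (p i₀ + 1) * Pb ≤ 2 ^ (p i₀ - 1) * Pb := Nat.mul_le_mul_right _ (pow_aux h3)
      _ = ∏ a ∈ Finset.univ.erase (0 : ZMod (p i₀)), (2 * b a) := by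
        rw [Finset.prod_mul_distrib, Finset.prod_const, hcard]
      _ ≤ PN := Finset.prod_le_prod' (fun a _ => hNb a)
  have hmain : (G 0).card * (p i₀ * Pb) ≤ Nat.card (Good ρ D X u) := by
    have h1 : (G 0).card * ((p i₀ + 1) * Pb) ≤ (G 0).card * PN := Nat.mul_le_mul_left _ hprod
    have h2 : (G 0).card * ((p i₀ + 1) * Pb) = (G 0).card * (p i₀ * Pb) + (G 0).card * Pb := by
      ring
    omega
  by_cases hi : i = i₀
  · subst hi
    have h1 : (Ker ρ X).relIndex (D i) ≤ b 0 * Pb * p i := by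
      have h2 : (Ker ρ X ⊓ D i) ≤ B := by
        rintro g ⟨hg1, hg2⟩
        refine ⟨hg2, ?_⟩
        by_contra hcg
        -- then some part is trivial
        have h3 : ∀ a, W a = ⊥ := by
          intro a
          rw [eq_bot_iff]
          intro x hx
          have h4 := hD.e_rho' hg2 (hD.le a hx) a
          rw [hg1 x (hD.le a hx), hD.e_self a x hx] at h4
          rw [hD.e_other a (a + c g) (fun h => hcg (by simpa using h.symm)) x hx] at h4
          rw [hg1 x (hD.le a hx)] at h4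
          exact h4.symm
        have h5 := hNb 0
        have h6 : (G 0).card ≤ 1 := by
          rw [Finset.card_le_one]
          intro v hv w hw
          have hv' : v ∈ W 0 := ((hGmem 0 v).1 hv).1
          have hw' : w ∈ W 0 := ((hGmem 0 w).1 hw).1
          rw [h3 0] at hv' hw'
          rw [(Submodule.mem_bot k).1 hv', (Submodule.mem_bot k).1 hw']
        have h7 := hb1 0
        omega
      have h3 : (Ker ρ X).relIndex (D i) = (Ker ρ X ⊓ D i).relIndex B * B.relIndex (D i) := by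
        rw [Subgroup.relIndex_mul_relIndex _ _ _ h2 hD.B_le, Subgroup.inf_relIndex_right]
      have h4 : (Ker ρ X ⊓ D i).relIndex B = (Ker ρ X).relIndex B := by
        rw [← Subgroup.inf_relIndex_right (Ker ρ X) B, ← Subgroup.inf_relIndex_right (_ ⊓ _) B]
        congr 1
        rw [inf_assoc, inf_eq_right.2 hD.B_le]
      have h5 : (Ker ρ X).relIndex B ≤ b 0 * Pb := by
        rw [hD.ker_eq]
        refine (Subgroup.relIndex_iInf_le _).trans (le_of_eq ?_)
        rw [hPb]
        exact (Finset.mul_prod_erase _ b (Finset.mem_univ _)).symm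
      rw [h3, h4]
      exact Nat.mul_le_mul h5 hD.B_relIndex
    have h2 := hNb 0
    calc 2 * (Ker ρ X).relIndex (D i) ≤ 2 * (b 0 * Pb * p i) := Nat.mul_le_mul_left _ h1
      _ = (2 * b 0) * (p i * Pb) := by ring
      _ ≤ (G 0).card * (p i * Pb) := Nat.mul_le_mul_right _ h2
      _ ≤ _ := hmain
  · have h1 : (Ker ρ X).relIndex (D i) ≤ (Ker ρ (W 0)).relIndex (D i) := by
      rw [← Subgroup.inf_relIndex_right (Ker ρ X), ← Subgroup.inf_relIndex_right (Ker ρ (W 0))]
      refine Subgroup.relIndex_le_of_le_left ?_ (relIndex_ne _ _)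
      · rintro d ⟨hd1, hd2⟩
        refine ⟨?_, hd2⟩
        show d ∈ Ker ρ X
        rw [hD.ker_eq, Subgroup.mem_iInf]
        intro a x hx
        have h2 : ρ (γ a)⁻¹ x ∈ W 0 := by
          have := hD.shift (γ a)⁻¹ ((D i₀).inv_mem (hγ a)) a x hx
          rwa [hD.c_inv (hγ a), hγc, add_neg_cancel] at this
        have h3 := hd1 _ h2
        rw [← rho_mul_inv ρ (γ a) x, rho_comm ρ (hF.comm i i₀ hi d hd2 _ (hγ a)), h3]
    have h2 := hN 0 i
    rw [hD'j i hi] at h2
    have h3 : (G 0).card * 1 ≤ (G 0).card * (p i₀ * Pb) := by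
      apply Nat.mul_le_mul_left
      exact Nat.one_le_iff_ne_zero.2 (Nat.mul_ne_zero hp.ne_zero (by omega))
    omega

end Pool.Agent.T6.H73.SY
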