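import Pool.Agent.T6.H73.SY.Act

/-!
Synchronized Sylow intersections in solvable groups.
-/

set_option autoImplicit false

namespace Pool.Agent.T6.H73.SY

open scoped Classical Pointwise

universe u v

/-- the `p`-core: the intersection of the Sylow `p`-subgroups -/
def Op (p : ℕ) (G : Type*) [Group G] : Subgroup G := ⨅ Q : Sylow p G, (Q : Subgroup G)

theorem mem_Op {p : ℕ} {G : Type*} [Group G] {g : G} : g ∈ Op p G ↔ ∀ Q : Sylow p G, g ∈ Q := by
  unfold Op
  rw [Subgroup.mem_iInf]
  rfl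

theorem mem_smul_sylow {p : ℕ} {G : Type*} [Group G] (t g : G) (Q : Sylow p G) :
    g ∈ t • Q ↔ t⁻¹ * g * t ∈ Q := by
  show g ∈ ((t • Q : Sylow p G) : Subgroup G) ↔ _
  rw [Sylow.coe_subgroup_smul, Subgroup.mem_pointwise_smul_iff_inv_smul_mem, ← map_inv,
    MulAut.smul_def, MulAut.conj_apply, inv_inv]
  rfl

theorem Op_normal {p : ℕ} {G : Type*} [Group G] : (Op p G).Normal := by
  constructor
  intro n hn g
  rw [mem_Op] at hn ⊢
  intro Q
  have h1 := hn (g⁻¹ • Q)
  rw [mem_smul_sylow, inv_inv] at h1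
  exact h1

theorem Op_pgroup {p : ℕ} {G : Type*} [Group G] : IsPGroup p (Op p G) := by
  obtain ⟨Q⟩ : Nonempty (Sylow p G) := inferInstance
  exact Q.2.to_le (fun g hg => mem_Op.1 hg Q)

theorem exists_conj {G : Type*} [Group G] [Finite G] {p : ℕ} [Fact p.Prime] (P : Sylow p G)
    (N : Subgroup G) [N.Normal] (R : Subgroup G) (hR : IsPGroup p R)
    (hRle : R ≤ (P : Subgroup G) ⊔ N) : ∃ a ∈ N, ∀ g ∈ R, a * g * a⁻¹ ∈ P := by
  have hPle : (P : Subgroup G) ≤ (P : Subgroup G) ⊔ N := le_sup_left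
  have hR' : IsPGroup p (R.subgroupOf ((P : Subgroup G) ⊔ N)) := hR.comap_subtype
  obtain ⟨Q', hQ'⟩ := hR'.exists_le_sylow
  obtain ⟨t, ht⟩ := MulAction.exists_smul_eq ((P : Subgroup G) ⊔ N : Subgroup G) Q'
    (P.subtype hPle)
  have htm : (t : G) ∈ ((P : Subgroup G) ⊔ N : Subgroup G) := t.2
  have htm' : (t : G) ∈ (((P : Subgroup G) ⊔ N : Subgroup G) : Set G) := htm
  rw [Subgroup.mul_normal] at htm'
  obtain ⟨s, hs, a, ha, hsa⟩ := htm'
  refine ⟨a, ha, ?_⟩
  intro g hg
  have h1 : (⟨g, hRle hg⟩ : ((P : Subgroup G) ⊔ N : Subgroup G)) ∈ Q' := hQ' hg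
  have h2 : t * ⟨g, hRle hg⟩ * t⁻¹ ∈ P.subtype hPle := by
    rw [← ht, mem_smul_sylow]
    have : t⁻¹ * (t * (⟨g, hRle hg⟩ : ((P : Subgroup G) ⊔ N : Subgroup G)) * t⁻¹) * t =
      ⟨g, hRle hg⟩ := by group
    rw [this]
    exact h1
  have h3 : (t : G) * g * (t : G)⁻¹ ∈ (P : Subgroup G) := h2
  have h4 : a * g * a⁻¹ = s⁻¹ * ((t : G) * g * (t : G)⁻¹) * s := by
    rw [← hsa]; group
  rw [h4]
  exact (P : Subgroup G).mul_mem ((P : Subgroup G).mul_mem ((P : Subgroup G).inv_mem hs) h3) hs

/-- `p`-power order and exponent `q` force triviality -/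
theorem eq_one_of_pow {G : Type*} [Group G] {p q k : ℕ} (hp : p.Prime) (hq : q.Prime)
    (hpq : p ≠ q) {g : G} (h1 : g ^ p ^ k = 1) (h2 : g ^ q = 1) : g = 1 := by
  have h3 := orderOf_dvd_of_pow_eq_one h1
  have h4 := orderOf_dvd_of_pow_eq_one h2
  have h5 : Nat.Coprime (p ^ k) q := Nat.Coprime.pow_left _ ((Nat.coprime_primes hp hq).2 hpq)
  have h6 := Nat.eq_one_of_dvd_coprimes h5 h3 h4
  exact orderOf_eq_one_iff.1 h6

theorem sync_aux (n : ℕ) : ∀ (G : Type u) [Group G] [Finite G] [Group.IsSolvable G],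
    Nat.card G ≤ n → ∀ (I : Type v) [Finite I] (p : I → ℕ), (∀ i, (p i).Prime) →
    Function.Injective p → (∀ i, p i ≠ 2) →
    (∀ q : ℕ, q.Prime → q ∣ Nat.card G → ∀ i n m, 1 ≤ n → p i ^ n + 1 ≠ q ^ m) →
    ∀ P : ∀ i, Sylow (p i) G,
      ∃ x : G, ∀ i, ∀ g ∈ P i, x * g * x⁻¹ ∈ P i → g ∈ Op (p i) G := by
  induction n with
  | zero =>
    intro G _ _ _ hG
    have : 0 < Nat.card G := Nat.card_pos
    omega
  | succ n ih =>
    intro G _ _ _ hG I _ p hp hinj hp2 hM P
    by_cases hsub : Subsingleton G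
    · refine ⟨1, fun i g _ _ => ?_⟩
      rw [Subsingleton.elim g 1]
      exact (Op (p i) G).one_mem
    haveI : Nontrivial G := not_subsingleton_iff_nontrivial.1 hsub
    obtain ⟨q, N, hq, hN, hN0, hNq, hNc⟩ := exists_elem (G := G)
    haveI := hN
    haveI : ∀ i, Fact (p i).Prime := fun i => ⟨hp i⟩
    haveI hNt : Nontrivial N := (Subgroup.nontrivial_iff_ne_bot N).2 hN0
    have hcard : Nat.card G = Nat.card (G ⧸ N) * Nat.card N :=
      Subgroup.card_eq_card_quotient_mul_card_subgroup N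
    have hN1 : 1 < Nat.card N := Finite.one_lt_card
    have hlt : Nat.card (G ⧸ N) ≤ n := by
      have h1 : 0 < Nat.card (G ⧸ N) := Nat.card_pos
      nlinarith
    have hqG : q ∣ Nat.card G := by
      obtain ⟨a, ha0⟩ := exists_ne (1 : N)
      have h1 : orderOf a ∣ q := orderOf_dvd_of_pow_eq_one (Subtype.ext (hNq a a.2))
      rcases (Nat.dvd_prime hq).1 h1 with h2 | h2
      · exact absurd (orderOf_eq_one_iff.1 h2) ha0
      · rw [← h2]
        exact (orderOf_dvd_natCard a).trans (Subgroup.card_subgroup_dvd_card N)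
    -- the quotient
    have hsurj : Function.Surjective (QuotientGroup.mk' N) := QuotientGroup.mk'_surjective N
    obtain ⟨xq, hxq⟩ := ih (G ⧸ N) hlt I p hp hinj hp2
      (fun r hr hrd => hM r hr (hrd.trans (Dvd.intro _ hcard.symm)))
      (fun i => (P i).mapSurjective hsurj)
    obtain ⟨x, rfl⟩ := hsurj xq
    have hmemP : ∀ i, ∀ g ∈ P i, QuotientGroup.mk' N g ∈ (P i).mapSurjective hsurj := by
      intro i g hg
      exact Subgroup.mem_map_of_mem _ hg
    have hx : ∀ i, ∀ g ∈ P i, QuotientGroup.mk' N (x * g * x⁻¹) ∈ (P i).mapSurjective hsurj →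
        QuotientGroup.mk' N g ∈ Op (p i) (G ⧸ N) := by
      intro i g hg h1
      apply hxq i _ (hmemP i g hg)
      simpa only [map_mul, map_inv] using h1
    -- lifting from the quotient to Sylow subgroups
    have hlift : ∀ i (Q : Sylow (p i) G) (g : G), QuotientGroup.mk' N g ∈ Op (p i) (G ⧸ N) →
        ∃ s ∈ Q, ∃ m ∈ N, g = s * m := by
      intro i Q g hg
      have h1 := mem_Op.1 hg (Q.mapSurjective hsurj)
      obtain ⟨s, hs, hsg⟩ := h1
      refine ⟨s, hs, s⁻¹ * g, ?_, by group⟩
      rw [← QuotientGroup.ker_mk' N, MonoidHom.mem_ker, map_mul, map_inv, hsg, inv_mul_cancel]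
    set M : I → Subgroup G := fun i => (Op (p i) (G ⧸ N)).comap (QuotientGroup.mk' N) with hMdef
    have hMmem : ∀ i g, g ∈ M i ↔ QuotientGroup.mk' N g ∈ Op (p i) (G ⧸ N) := fun i g => Iff.rfl
    have hMn : ∀ i, (M i).Normal := by
      intro i
      haveI : (Op (p i) (G ⧸ N)).Normal := Op_normal
      exact Subgroup.Normal.comap inferInstance _
    -- the translates
    have htr : ∀ i, ∃ a : N, ∀ g ∈ M i, x * g * x⁻¹ ∈ P i → (a : G) * g * (a : G)⁻¹ ∈ P i := by
      intro i
      set R : Subgroup G := M i ⊓ ((P i : Subgroup G).comap (MulAut.conj x).toMonoidHom) with hR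
      have hRp : IsPGroup (p i) R := by
        have h1 : IsPGroup (p i) ((P i : Subgroup G).comap (MulAut.conj x).toMonoidHom) :=
          (P i).2.comap_of_injective _ (MulAut.conj x).injective
        exact h1.to_le inf_le_right
      have hRle : R ≤ (P i : Subgroup G) ⊔ N := by
        rintro g ⟨hg, -⟩
        obtain ⟨s, hs, m, hm, rfl⟩ := hlift i (P i) g hg
        exact Subgroup.mul_mem_sup hs hm
      obtain ⟨a, ha, h⟩ := exists_conj (P i) N R hRp hRle
      refine ⟨⟨a, ha⟩, ?_⟩
      intro g hg hgx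
      exact h g ⟨hg, hgx⟩
    choose a ha using htr
    -- the action on `N`
    have hact := exists_good (A := N) (fun b c => Subtype.ext (hNc b b.2 c c.2)) hq
      (fun b => Subtype.ext (hNq b b.2)) (I := {i : I // p i ≠ q}) (p := fun i => p i.1)
      (fun i => hp i.1) (fun i j h => Subtype.ext (hinj h)) (fun i => hp2 i.1) (fun i => i.2)
      (fun i => hM q hq hqG i.1)
      (fun i => (M i.1).map (MulAut.conjNormal (H := N))) (by
        rintro ⟨i, hi⟩ ⟨φ, ⟨g, hg, rfl⟩⟩
        obtain ⟨k, hk⟩ := Op_pgroup ⟨QuotientGroup.mk' N g, hg⟩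
        refine ⟨k, ?_⟩
        have h1 : g ^ (p i) ^ k ∈ N := by
          have h2 := congrArg Subtype.val hk
          rw [← QuotientGroup.ker_mk' N, MonoidHom.mem_ker, map_pow]
          exact h2
        apply Subtype.ext
        show (MulAut.conjNormal (H := N) g) ^ (p i) ^ k = 1
        rw [← map_pow]
        ext b
        rw [MulAut.conjNormal_apply]
        show _ = (b : G)
        rw [hNc _ h1 b b.2]
        group) (by
        rintro ⟨i, hi⟩ ⟨j, hj⟩ hij φ ⟨g, hg, rfl⟩ ψ ⟨h, hh, rfl⟩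
        have hij' : i ≠ j := fun h => hij (Subtype.ext h)
        have hpij : p i ≠ p j := fun h => hij' (hinj h)
        have h1 : Commute (QuotientGroup.mk' N g) (QuotientGroup.mk' N h) :=
          Subgroup.commute_of_normal_of_disjoint _ _ Op_normal Op_normal
            (IsPGroup.disjoint_of_ne (p i) (p j) hpij _ _ Op_pgroup Op_pgroup) _ _ hg hh
        have h2 : (h * g)⁻¹ * (g * h) ∈ N := by
          rw [← QuotientGroup.ker_mk' N, MonoidHom.mem_ker, map_mul, map_inv, map_mul, map_mul,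
            h1.eq, inv_mul_cancel]
        show MulAut.conjNormal (H := N) g * MulAut.conjNormal h =
          MulAut.conjNormal h * MulAut.conjNormal g
        rw [← map_mul, ← map_mul]
        ext b
        rw [MulAut.conjNormal_apply, MulAut.conjNormal_apply]
        have h3 : g * h = (h * g) * ((h * g)⁻¹ * (g * h)) := by group
        have h4 := hNc _ h2 b b.2
        calc g * h * (b : G) * (g * h)⁻¹ =
            (h * g) * ((((h * g)⁻¹ * (g * h)) * (b : G)) * ((h * g)⁻¹ * (g * h))⁻¹) *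
              (h * g)⁻¹ := by group
          _ = h * g * (b : G) * (h * g)⁻¹ := by rw [h4]; group) (fun i => a i.1)
    obtain ⟨v, hv⟩ := hact
    refine ⟨x * v, ?_⟩
    intro i g hg hgx
    have hπv : QuotientGroup.mk' N (v : G) = 1 := by
      rw [← MonoidHom.mem_ker, QuotientGroup.ker_mk']
      exact v.2
    have hgM : g ∈ M i := by
      apply hx i g hg
      have h1 := hmemP i _ hgx
      have h2 : QuotientGroup.mk' N (x * g * x⁻¹) =
          QuotientGroup.mk' N (x * (v : G) * g * (x * (v : G))⁻¹) := by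
        simp only [map_mul, map_inv, hπv, mul_one]
      rw [h2]
      exact h1
    rw [mem_Op]
    intro Q
    obtain ⟨s, hs, m, hm, hgsm⟩ := hlift i Q g hgM
    by_cases hpq : p i = q
    · have hNQ : N ≤ (Q : Subgroup G) := by
        apply IsPGroup.le_sylow_of_normal
        intro b
        exact ⟨1, Subtype.ext (by rw [pow_one, hpq]; exact hNq b b.2)⟩
      rw [hgsm]
      exact (Q : Subgroup G).mul_mem hs (hNQ hm)
    · -- the element `g` centralizes `N`
      have hcent : ∀ b : N, g * (b : G) * g⁻¹ = b := by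
        have h1 := hv ⟨i, hpq⟩ (MulAut.conjNormal g) ⟨g, hgM, rfl⟩ (by
          apply Subtype.ext
          rw [MulAut.conjNormal_apply]
          have hvg : (v : G) * g * (v : G)⁻¹ ∈ M i := (hMn i).conj_mem g hgM v
          have h2 : x * ((v : G) * g * (v : G)⁻¹) * x⁻¹ ∈ P i := by
            have : x * ((v : G) * g * (v : G)⁻¹) * x⁻¹ = x * (v : G) * g * (x * (v : G))⁻¹ := by
              group
            rw [this]; exact hgx
          have h3 := ha i _ hvg h2
          set w : G := (a i : G) * (v : G) with hw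
          have hwN : w ∈ N := N.mul_mem (a i).2 v.2
          have h4 : w * g * w⁻¹ * g⁻¹ ∈ P i := by
            have : w * g * w⁻¹ = (a i : G) * ((v : G) * g * (v : G)⁻¹) * (a i : G)⁻¹ := by
              rw [hw]; group
            rw [this]
            exact (P i : Subgroup G).mul_mem h3 ((P i : Subgroup G).inv_mem hg)
          have h5 : w * g * w⁻¹ * g⁻¹ ∈ N := by
            have : w * g * w⁻¹ * g⁻¹ = w * (g * w⁻¹ * g⁻¹) := by group
            rw [this]
            exact N.mul_mem hwN (hN.conj_mem _ (N.inv_mem hwN) g)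
          obtain ⟨k, hk⟩ := (P i).2 ⟨_, h4⟩
          have h6 : (w * g * w⁻¹ * g⁻¹) ^ (p i) ^ k = 1 := congrArg Subtype.val hk
          have h7 := eq_one_of_pow (hp i) hq hpq h6 (hNq _ h5)
          have h8 : w * g = g * w := by
            have : w * g * w⁻¹ * g⁻¹ * (g * w) = g * w := by rw [h7, one_mul]
            rw [← this]; group
          show g * w * g⁻¹ = w
          rw [← h8]; group)
        intro b
        have h2 := congrArg Subtype.val (h1 b)
        rwa [MulAut.conjNormal_apply] at h2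
      have hcomm : Commute g m := by
        have h1 := hcent ⟨m, hm⟩
        have h2 : g * m = m * g := by
          have : g * m * g⁻¹ * g = m * g := by rw [h1]
          rw [← this]; group
        exact h2
      have hsg : s = g * m⁻¹ := by rw [hgsm]; group
      obtain ⟨k, hk⟩ := (P i).2 ⟨g, hg⟩
      obtain ⟨l, hl⟩ := Q.2 ⟨s, hs⟩
      have hk' : g ^ (p i) ^ k = 1 := congrArg Subtype.val hk
      have hl' : s ^ (p i) ^ l = 1 := congrArg Subtype.val hl
      have h1 : g ^ (p i) ^ (k + l) = 1 := by rw [pow_add, pow_mul, hk', one_pow]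
      have h2 : s ^ (p i) ^ (k + l) = 1 := by rw [add_comm, pow_add, pow_mul, hl', one_pow]
      have h3 : m ^ (p i) ^ (k + l) = 1 := by
        rw [hsg, (hcomm.inv_right).mul_pow, h1, one_mul, inv_pow, inv_eq_one] at h2
        exact h2
      have h4 := eq_one_of_pow (hp i) hq hpq h3 (hNq m hm)
      rw [hgsm, h4, mul_one]
      exact hs

end Pool.Agent.T6.H73.SY
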