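import Pool.Agent.T6.H73.SY.GL

/-!
Commuting `p_i`-groups acting on a finite vector space: definitions, complements, and the
reducible case.
-/

set_option autoImplicit false

namespace Pool.Agent.T6.H73.SY

open scoped Classical

variable {k : Type*} [Field k] {V : Type*} [AddCommGroup V] [Module k V] {Γ : Type*} [Group Γ]
variable {I : Type*}

/-- the elements acting trivially on `X` -/
def Ker (ρ : Γ →* Module.End k V) (X : Submodule k V) : Subgroup Γ where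
  carrier := {g | ∀ x ∈ X, ρ g x = x}
  one_mem' := by
    intro x _
    rw [map_one]; rfl
  mul_mem' := by
    intro a b ha hb x hx
    rw [map_mul, Module.End.mul_apply, hb x hx, ha x hx]
  inv_mem' := by
    intro a ha x hx
    have h := ha x hx
    conv_lhs => rw [← h]
    rw [← Module.End.mul_apply, ← map_mul, inv_mul_cancel, map_one]
    rfl

theorem mem_Ker {ρ : Γ →* Module.End k V} {X : Submodule k V} {g : Γ} :
    g ∈ Ker ρ X ↔ ∀ x ∈ X, ρ g x = x := Iff.rfl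

/-- vectors `v` in `X` such that the stabilizer of `u i + v` in `D i` acts trivially on `X` -/
def Good (ρ : Γ →* Module.End k V) (D : I → Subgroup Γ) (X : Submodule k V) (u : I → V) :
    Set V :=
  {v | v ∈ X ∧ ∀ i, ∀ d ∈ D i, ρ d (u i + v) = u i + v → d ∈ Ker ρ X}

/-- a family of commuting `p_i`-groups acting on `X` -/
structure Fam (p : I → ℕ) (ρ : Γ →* Module.End k V) (D : I → Subgroup Γ) (X : Submodule k V) :
    Prop where
  pg : ∀ i, IsPGroup (p i) (D i)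
  comm : ∀ i j, i ≠ j → ∀ a ∈ D i, ∀ b ∈ D j, a * b = b * a
  inv : ∀ i, ∀ d ∈ D i, ∀ x ∈ X, ρ d x ∈ X

/-- the claim for the subspace `X` -/
def TC (p : I → ℕ) (ρ : Γ →* Module.End k V) (X : Submodule k V) : Prop :=
  ∀ D : I → Subgroup Γ, Fam p ρ D X → ∀ u : I → V, (∀ i, u i ∈ X) →
    ∀ i, 2 * (Ker ρ X).relIndex (D i) ≤ Nat.card (Good ρ D X u)

theorem rho_inv_mul (ρ : Γ →* Module.End k V) (d : Γ) (x : V) : ρ d⁻¹ (ρ d x) = x := by
  rw [← Module.End.mul_apply, ← map_mul, inv_mul_cancel, map_one]; rfl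

theorem rho_mul_inv (ρ : Γ →* Module.End k V) (d : Γ) (x : V) : ρ d (ρ d⁻¹ x) = x := by
  rw [← Module.End.mul_apply, ← map_mul, mul_inv_cancel, map_one]; rfl

theorem rho_comm (ρ : Γ →* Module.End k V) {a b : Γ} (h : a * b = b * a) (x : V) :
    ρ a (ρ b x) = ρ b (ρ a x) := by
  rw [← Module.End.mul_apply, ← map_mul, h, map_mul, Module.End.mul_apply]

theorem Fam.mono {p : I → ℕ} {ρ : Γ →* Module.End k V} {D : I → Subgroup Γ}
    {X Y : Submodule k V} (hF : Fam p ρ D X) (hY : ∀ i, ∀ d ∈ D i, ∀ y ∈ Y, ρ d y ∈ Y) :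
    Fam p ρ D Y := ⟨hF.pg, hF.comm, hY⟩

theorem equivariant_proj [Finite I] [Finite Γ] {p : I → ℕ} (hp : ∀ i, (p i).Prime)
    (hpk : ∀ i, (p i : k) ≠ 0)
    {ρ : Γ →* Module.End k V} {D : I → Subgroup Γ} {X Y : Submodule k V} (hF : Fam p ρ D X)
    (hY : ∀ i, ∀ d ∈ D i, ∀ y ∈ Y, ρ d y ∈ Y) (s : Finset I) :
    ∃ f : V →ₗ[k] V, (∀ v, f v ∈ Y) ∧ (∀ y ∈ Y, f y = y) ∧
      ∀ i ∈ s, ∀ d ∈ D i, ∀ v, f (ρ d v) = ρ d (f v) := by
  induction s using Finset.induction_on with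
  | empty =>
    obtain ⟨g, hg⟩ := LinearMap.exists_leftInverse_of_injective Y.subtype (Submodule.ker_subtype Y)
    refine ⟨Y.subtype ∘ₗ g, fun v => (g v).2, ?_, by simp⟩
    intro y hy
    have := congrArg (fun φ => ((φ ⟨y, hy⟩ : Y) : V)) hg
    simpa using this
  | insert i s his ih =>
    obtain ⟨f, hf1, hf2, hf3⟩ := ih
    haveI : Fintype (D i) := Fintype.ofFinite _
    set n : k := (Nat.card (D i) : k) with hn
    have hn0 : n ≠ 0 := by
      haveI := Fact.mk (hp i)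
      obtain ⟨m, hm⟩ := IsPGroup.iff_card.1 (hF.pg i)
      rw [hn, hm]
      push_cast
      exact pow_ne_zero _ (hpk i)
    let F : V →ₗ[k] V := n⁻¹ • ∑ d : D i, (ρ (d : Γ)) ∘ₗ f ∘ₗ (ρ (d : Γ)⁻¹)
    have hFv : ∀ v, F v = n⁻¹ • ∑ d : D i, ρ (d : Γ) (f (ρ (d : Γ)⁻¹ v)) := by
      intro v
      simp only [F, LinearMap.smul_apply, LinearMap.sum_apply, LinearMap.comp_apply]
    refine ⟨F, ?_, ?_, ?_⟩
    · intro v
      rw [hFv]
      exact Y.smul_mem _ (Y.sum_mem fun d _ => hY i d d.2 _ (hf1 _))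
    · intro y hy
      rw [hFv]
      have h1 : ∀ d : D i, ρ (d : Γ) (f (ρ (d : Γ)⁻¹ y)) = y := by
        intro d
        rw [hf2 _ (hY i _ ((D i).inv_mem d.2) y hy), rho_mul_inv]
      rw [Finset.sum_congr rfl (fun d _ => h1 d), Finset.sum_const, Finset.card_univ,
        ← Nat.card_eq_fintype_card, ← Nat.cast_smul_eq_nsmul k, ← hn, smul_smul,
        inv_mul_cancel₀ hn0, one_smul]
    · intro j hj e he v
      rw [hFv, hFv, map_smul, map_sum]
      congr 1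
      rcases Finset.mem_insert.1 hj with rfl | hjs
      · rw [← Equiv.sum_comp (Equiv.mulLeft (⟨e, he⟩ : D j))]
        apply Finset.sum_congr rfl
        intro d _
        simp only [Equiv.coe_mulLeft, Subgroup.coe_mul]
        rw [map_mul, Module.End.mul_apply]
        congr 3
        rw [← Module.End.mul_apply, ← map_mul]
        congr 2
        group
      · have hij : i ≠ j := by
          rintro rfl
          exact his hjs
        apply Finset.sum_congr rfl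
        intro d _
        have h1 := hF.comm i j hij (d : Γ)⁻¹ ((D i).inv_mem d.2) e he
        rw [rho_comm ρ h1, hf3 j hjs e he, rho_comm ρ (hF.comm i j hij d d.2 e he)]

/-- invariant complements -/
theorem complement [Finite I] [Finite Γ] {p : I → ℕ} (hp : ∀ i, (p i).Prime)
    (hpk : ∀ i, (p i : k) ≠ 0)
    {ρ : Γ →* Module.End k V} {D : I → Subgroup Γ} {X Y : Submodule k V} (hF : Fam p ρ D X)
    (hYX : Y ≤ X) (hY : ∀ i, ∀ d ∈ D i, ∀ y ∈ Y, ρ d y ∈ Y) :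
    ∃ Z : Submodule k V, Z ≤ X ∧ Y ⊓ Z = ⊥ ∧ Y ⊔ Z = X ∧
      ∀ i, ∀ d ∈ D i, ∀ z ∈ Z, ρ d z ∈ Z := by
  haveI : Fintype I := Fintype.ofFinite I
  obtain ⟨f, hf1, hf2, hf3⟩ := equivariant_proj hp hpk hF hY Finset.univ
  refine ⟨X ⊓ LinearMap.ker f, inf_le_left, ?_, ?_, ?_⟩
  · rw [eq_bot_iff]
    rintro x ⟨hx1, hx2, hx3⟩
    have h1 : f x = 0 := hx3
    rw [hf2 x hx1] at h1
    exact h1
  · apply le_antisymm (sup_le hYX inf_le_left)
    intro x hx
    have h1 : x = f x + (x - f x) := by abel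
    rw [h1]
    refine Submodule.add_mem_sup (hf1 x) ⟨X.sub_mem hx (hYX (hf1 x)), ?_⟩
    show f (x - f x) = 0
    rw [map_sub, hf2 _ (hf1 x), sub_self]
  · rintro i d hd z ⟨hz1, hz2⟩
    refine ⟨hF.inv i d hd z hz1, ?_⟩
    show f (ρ d z) = 0
    rw [hf3 i (Finset.mem_univ i) d hd, show f z = 0 from hz2, map_zero]

/-- the reducible case -/
theorem case_red [Finite V] [Finite Γ] {p : I → ℕ}
    {ρ : Γ →* Module.End k V} {D : I → Subgroup Γ} {X Y Z : Submodule k V} (hF : Fam p ρ D X)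
    (hYX : Y ≤ X) (hZX : Z ≤ X) (hYZ : Y ⊓ Z = ⊥) (hsup : Y ⊔ Z = X)
    (hY : ∀ i, ∀ d ∈ D i, ∀ y ∈ Y, ρ d y ∈ Y) (hZ : ∀ i, ∀ d ∈ D i, ∀ z ∈ Z, ρ d z ∈ Z)
    (hTY : TC p ρ Y) (hTZ : TC p ρ Z) (u : I → V) (hu : ∀ i, u i ∈ X) (i : I) :
    2 * (Ker ρ X).relIndex (D i) ≤ Nat.card (Good ρ D X u) := by
  have hdec : ∀ i, ∃ y ∈ Y, ∃ z ∈ Z, y + z = u i := by
    intro i
    have := hu i
    rw [← hsup, Submodule.mem_sup] at this
    exact this
  choose uy huy uz huz huyz using hdec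
  have h1 := hTY D (hF.mono hY) uy huy i
  have h2 := hTZ D (hF.mono hZ) uz huz i
  have hker : Ker ρ X = Ker ρ Y ⊓ Ker ρ Z := by
    ext g
    rw [Subgroup.mem_inf, mem_Ker, mem_Ker, mem_Ker]
    constructor
    · intro h
      exact ⟨fun y hy => h y (hYX hy), fun z hz => h z (hZX hz)⟩
    · rintro ⟨ha, hb⟩ x hx
      rw [← hsup, Submodule.mem_sup] at hx
      obtain ⟨y, hy, z, hz, rfl⟩ := hx
      rw [map_add, ha y hy, hb z hz]
  have hdis : ∀ y ∈ Y, ∀ z ∈ Z, y + z = 0 → y = 0 ∧ z = 0 := by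
    intro y hy z hz h
    have h3 : y = -z := eq_neg_of_add_eq_zero_left h
    have h4 : y ∈ Y ⊓ Z := ⟨hy, by rw [h3]; exact Z.neg_mem hz⟩
    rw [hYZ] at h4
    have h5 : y = 0 := h4
    refine ⟨h5, ?_⟩
    rw [h5, zero_add] at h
    exact h
  have hmem : ∀ v ∈ Good ρ D Y uy, ∀ w ∈ Good ρ D Z uz, v + w ∈ Good ρ D X u := by
    rintro v ⟨hv1, hv2⟩ w ⟨hw1, hw2⟩
    refine ⟨X.add_mem (hYX hv1) (hZX hw1), ?_⟩
    intro j d hd hfix
    have hy' : uy j + v ∈ Y := Y.add_mem (huy j) hv1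
    have hz' : uz j + w ∈ Z := Z.add_mem (huz j) hw1
    have h3 := hdis (ρ d (uy j + v) - (uy j + v)) (Y.sub_mem (hY j d hd _ hy') hy')
      (ρ d (uz j + w) - (uz j + w)) (Z.sub_mem (hZ j d hd _ hz') hz') (by
        have h4 : u j + (v + w) = (uy j + v) + (uz j + w) := by
          rw [← huyz j]; abel
        rw [h4, map_add] at hfix
        have : ρ d (uy j + v) - (uy j + v) + (ρ d (uz j + w) - (uz j + w)) =
          (ρ d (uy j + v) + ρ d (uz j + w)) - ((uy j + v) + (uz j + w)) := by abel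
        rw [this, hfix, sub_self])
    rw [hker]
    exact ⟨hv2 j d hd (sub_eq_zero.1 h3.1), hw2 j d hd (sub_eq_zero.1 h3.2)⟩
  have hcard : Nat.card (Good ρ D Y uy) * Nat.card (Good ρ D Z uz) ≤
      Nat.card (Good ρ D X u) := by
    rw [← Nat.card_prod]
    apply Nat.card_le_card_of_injective
      (fun q : Good ρ D Y uy × Good ρ D Z uz =>
        (⟨q.1.1 + q.2.1, hmem _ q.1.2 _ q.2.2⟩ : Good ρ D X u))
    rintro ⟨⟨a, ha⟩, ⟨b, hb⟩⟩ ⟨⟨a', ha'⟩, ⟨b', hb'⟩⟩ h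
    have h3 : a + b = a' + b' := congrArg Subtype.val h
    have h4 := hdis (a - a') (Y.sub_mem ha.1 ha'.1) (b - b') (Z.sub_mem hb.1 hb'.1) (by
      have : a - a' + (b - b') = (a + b) - (a' + b') := by abel
      rw [this, h3, sub_self])
    simp only [Prod.mk.injEq, Subtype.mk.injEq]
    exact ⟨sub_eq_zero.1 h4.1, sub_eq_zero.1 h4.2⟩
  have h3 : (Ker ρ X).relIndex (D i) ≤ (Ker ρ Y).relIndex (D i) * (Ker ρ Z).relIndex (D i) := by
    rw [hker]
    exact Subgroup.relIndex_inf_le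
  calc 2 * (Ker ρ X).relIndex (D i) ≤
      2 * ((Ker ρ Y).relIndex (D i) * (Ker ρ Z).relIndex (D i)) := Nat.mul_le_mul_left _ h3
    _ ≤ (2 * (Ker ρ Y).relIndex (D i)) * (2 * (Ker ρ Z).relIndex (D i)) := by nlinarith
    _ ≤ Nat.card (Good ρ D Y uy) * Nat.card (Good ρ D Z uz) := Nat.mul_le_mul h1 h2
    _ ≤ _ := hcard

end Pool.Agent.T6.H73.SY
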